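import Pool.Agent.Lib_4426b5.Reach

set_option autoImplicit false
set_option linter.unusedSectionVars false
set_option linter.unusedVariables false

namespace Pool.Agent.Lib_4426b5

/-! ### The closure computation -/

section
variable {α : Type} [DecidableEq α] [Fintype α]

abbrev TT (α : Type) : Type := Finset ((α × Bool) × (α × Bool))
abbrev MM (α : Type) : Type := (α × Bool) × Finset (α × Bool)
abbrev ST (α : Type) : Type := List (α × Bool) × TT α

open Classical in
/-- admissibility of a move at a set of transitions -/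
noncomputable def adm (m : MM α) (T : TT α) : Bool :=
  decide (Ok m.1 m.2 ∧ ∀ p ∈ T, ¬ Bad m.1 m.2 p.1 p.2)

/-- all letters -/
noncomputable def lets (α : Type) [DecidableEq α] [Fintype α] : List (α × Bool) :=
  (Finset.univ : Finset (α × Bool)).toList

/-- all moves -/
noncomputable def mvs (α : Type) [DecidableEq α] [Fintype α] : List (MM α) :=
  (Finset.univ : Finset (MM α)).toList

/-- one move -/
noncomputable def one (B : ℕ) (s : ST α) (m : MM α) : List (ST α) :=
  bif (adm m s.2 && decide ((ins m.1 m.2 s.1).length ≤ B)) then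
    [(ins m.1 m.2 s.1, δ m.1 m.2 s.2)] else []

/-- successors of a state -/
noncomputable def succs (B : ℕ) (s : ST α) : List (ST α) :=
  (s.1.tail, s.2) :: (s.1.take (s.1.length - 1), s.2) :: (mvs α).flatMap (one B s)

/-- the initial states -/
noncomputable def base (α : Type) [DecidableEq α] [Fintype α] (B : ℕ) : List (ST α) :=
  (lets α).map (fun c => ((List.range B).map (fun _ => c), ({(c, c)} : TT α)))

/-- iterated closure -/
noncomputable def cl (α : Type) [DecidableEq α] [Fintype α] (B k : ℕ) : List (ST α) :=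
  Nat.rec (base α B) (fun _ ih => ih ++ ih.flatMap (succs B)) k

theorem cl_zero (B : ℕ) : cl α B 0 = base α B := rfl

theorem cl_succ (B k : ℕ) : cl α B (k + 1) = cl α B k ++ (cl α B k).flatMap (succs B) := rfl

theorem mem_base {B : ℕ} {s : ST α} : s ∈ base α B ↔ ∃ c, s = (List.replicate B c, {(c, c)}) := by
  unfold base lets
  rw [List.mem_map]
  constructor
  · rintro ⟨c, _, rfl⟩
    refine ⟨c, ?_⟩
    simp
  · rintro ⟨c, rfl⟩
    refine ⟨c, by simp, ?_⟩
    simp

theorem mem_one {B : ℕ} {s s' : ST α} {m : MM α} : s' ∈ one B s m ↔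
    Ok m.1 m.2 ∧ (∀ p ∈ s.2, ¬ Bad m.1 m.2 p.1 p.2) ∧ (ins m.1 m.2 s.1).length ≤ B ∧
      s' = (ins m.1 m.2 s.1, δ m.1 m.2 s.2) := by
  classical
  have hadm : adm m s.2 = true ↔ (Ok m.1 m.2 ∧ ∀ p ∈ s.2, ¬ Bad m.1 m.2 p.1 p.2) := by
    unfold adm
    rw [decide_eq_true_iff]
  unfold one
  by_cases h1 : (Ok m.1 m.2 ∧ ∀ p ∈ s.2, ¬ Bad m.1 m.2 p.1 p.2)
  · by_cases h2 : (ins m.1 m.2 s.1).length ≤ B
    · rw [hadm.2 h1, decide_eq_true h2]
      show s' ∈ [(ins m.1 m.2 s.1, δ m.1 m.2 s.2)] ↔ _
      rw [List.mem_singleton]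
      exact ⟨fun h => ⟨h1.1, h1.2, h2, h⟩, fun h => h.2.2.2⟩
    · rw [hadm.2 h1, decide_eq_false h2]
      show s' ∈ [] ↔ _
      constructor
      · intro h; exact absurd h List.not_mem_nil
      · rintro ⟨_, _, h, _⟩; exact absurd h h2
  · rw [Bool.eq_false_iff.2 (fun h => h1 (hadm.1 h))]
    show s' ∈ [] ↔ _
    constructor
    · intro h; exact absurd h List.not_mem_nil
    · rintro ⟨h3, h4, _⟩; exact absurd ⟨h3, h4⟩ h1

theorem mem_succs {B : ℕ} {s s' : ST α} : s' ∈ succs B s ↔
    s' = (s.1.tail, s.2) ∨ s' = (s.1.dropLast, s.2) ∨ ∃ m : MM α, s' ∈ one B s m := by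
  unfold succs
  rw [List.mem_cons, List.mem_cons, List.mem_flatMap, List.dropLast_eq_take]
  constructor
  · rintro (h | h | ⟨m, _, h⟩)
    · left; exact h
    · right; left; exact h
    · right; right; exact ⟨m, h⟩
  · rintro (h | h | ⟨m, h⟩)
    · left; exact h
    · right; left; exact h
    · right; right
      refine ⟨m, ?_, h⟩
      unfold mvs
      simp

theorem cl_sound {B : ℕ} (k : ℕ) : ∀ s ∈ cl α B k, Reach B s.1 s.2 ∧ s.1.length ≤ B := by
  induction k with
  | zero =>
    intro s hs
    rw [cl_zero, mem_base] at hs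
    obtain ⟨c, rfl⟩ := hs
    exact ⟨Reach.base c, by simp⟩
  | succ k ih =>
    intro s hs
    rw [cl_succ, List.mem_append, List.mem_flatMap] at hs
    rcases hs with hs | ⟨s', hs', hs⟩
    · exact ih s hs
    · obtain ⟨h1, h2⟩ := ih s' hs'
      rw [mem_succs] at hs
      rcases hs with rfl | rfl | ⟨m, hs⟩
      · refine ⟨Reach.tl _ _ h1, ?_⟩
        simp only [List.length_tail]; omega
      · refine ⟨Reach.dl _ _ h1, ?_⟩
        simp only [List.length_dropLast]; omega
      · rw [mem_one] at hs
        obtain ⟨h3, h4, h5, rfl⟩ := hs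
        exact ⟨Reach.mv _ _ _ _ h1 h3 h4 h5, h5⟩

theorem cl_mono {B : ℕ} {k l : ℕ} (h : k ≤ l) : ∀ s ∈ cl α B k, s ∈ cl α B l := by
  induction l with
  | zero =>
    have : k = 0 := by omega
    subst this
    intro s hs; exact hs
  | succ l ih =>
    rcases Nat.lt_or_ge l k with h1 | h1
    · have : k = l + 1 := by omega
      subst this
      intro s hs; exact hs
    · intro s hs
      rw [cl_succ, List.mem_append]
      left
      exact ih h1 s hs

theorem cl_closed {B k : ℕ} (h : ∀ s ∈ cl α B (k + 1), s ∈ cl α B k) {v : List (α × Bool)}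
    {T : TT α} (hr : Reach B v T) : (v, T) ∈ cl α B k := by
  have hstep : ∀ s ∈ cl α B k, ∀ s' ∈ succs B s, s' ∈ cl α B k := by
    intro s hs s' hs'
    apply h
    rw [cl_succ, List.mem_append, List.mem_flatMap]
    right
    exact ⟨s, hs, hs'⟩
  induction hr with
  | base c =>
    apply cl_mono (Nat.zero_le k)
    rw [cl_zero, mem_base]
    exact ⟨c, rfl⟩
  | tl v T _ ih => exact hstep _ ih _ (mem_succs.2 (Or.inl rfl))
  | dl v T _ ih => exact hstep _ ih _ (mem_succs.2 (Or.inr (Or.inl rfl)))
  | mv v T a A _ hOk hbad hlen ih =>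
    exact hstep _ ih _ (mem_succs.2 (Or.inr (Or.inr ⟨(a, A), mem_one.2 ⟨hOk, hbad, hlen, rfl⟩⟩)))

/-- bound for the number of states -/
def bd (c t B : ℕ) : ℕ := (c + 1) ^ B * t

theorem card_bound {B : ℕ} (S : Finset (ST α)) (hS : ∀ s ∈ S, s.1.length ≤ B) :
    S.card ≤ bd (Fintype.card (α × Bool)) (Fintype.card (TT α)) B := by
  have h1 : S.card ≤ (Finset.univ : Finset ((Fin B → Option (α × Bool)) × TT α)).card := by
    apply Finset.card_le_card_of_injOn (fun s => ((fun i : Fin B => s.1[(i : ℕ)]?), s.2))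
    · intro s _
      exact Finset.mem_coe.2 (Finset.mem_univ _)
    · intro s hs s' hs' h
      simp only [Prod.mk.injEq] at h
      obtain ⟨h2, h3⟩ := h
      apply Prod.ext _ h3
      apply List.ext_getElem?
      intro i
      by_cases hi : i < B
      · exact congrFun h2 ⟨i, hi⟩
      · have e1 := hS s hs
        have e2 := hS s' hs'
        rw [List.getElem?_eq_none (by omega), List.getElem?_eq_none (by omega)]
  refine le_trans h1 ?_
  rw [Finset.card_univ, Fintype.card_prod, Fintype.card_fun, Fintype.card_option, Fintype.card_fin]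
  exact le_rfl

theorem exists_stable (B : ℕ) : ∃ k ≤ bd (Fintype.card (α × Bool)) (Fintype.card (TT α)) B,
    ∀ s ∈ cl α B (k + 1), s ∈ cl α B k := by
  classical
  by_contra hcon
  push Not at hcon
  have h1 : ∀ k, k ≤ bd (Fintype.card (α × Bool)) (Fintype.card (TT α)) B + 1 →
      k ≤ (cl α B k).toFinset.card := by
    intro k
    induction k with
    | zero => intro _; exact Nat.zero_le _
    | succ k ih =>
      intro hk
      obtain ⟨s, hs1, hs2⟩ := hcon k (by omega)
      have h2 : (cl α B k).toFinset ⊂ (cl α B (k + 1)).toFinset := by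
        rw [Finset.ssubset_iff_of_subset]
        · exact ⟨s, List.mem_toFinset.2 hs1, fun h => hs2 (List.mem_toFinset.1 h)⟩
        · intro x hx
          rw [List.mem_toFinset] at hx ⊢
          exact cl_mono (Nat.le_succ k) x hx
      have h3 := Finset.card_lt_card h2
      have h4 := ih (by omega)
      omega
  have h2 := h1 _ le_rfl
  have h3 := card_bound (B := B)
    (cl α B (bd (Fintype.card (α × Bool)) (Fintype.card (TT α)) B + 1)).toFinset (by
      intro s hs
      rw [List.mem_toFinset] at hs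
      exact (cl_sound _ s hs).2)
  omega

theorem reach_iff_cl {B : ℕ} {v : List (α × Bool)} {T : TT α} :
    Reach B v T ↔ (v, T) ∈ cl α B (bd (Fintype.card (α × Bool)) (Fintype.card (TT α)) B) := by
  constructor
  · intro h
    obtain ⟨k, hk, hk2⟩ := exists_stable (α := α) B
    exact cl_mono hk _ (cl_closed hk2 h)
  · intro h
    exact (cl_sound _ _ h).1

end

end Pool.Agent.Lib_4426b5
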