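import Pool.Agent.Lib_4426b5.Half

set_option autoImplicit false
set_option linter.unusedSectionVars false
set_option linter.unusedVariables false

namespace Pool.Agent.Lib_4426b5

variable {α : Type} [DecidableEq α]

/-! ### Limits of a half space along the axis -/

theorem zpow_const {D : FreeGroup α → Prop} {W : FreeGroup α}
    (hW : ∀ g, (D (g * W) ↔ D g) ↔ g ≠ 1) {g : FreeGroup α} (hg : g ∉ Subgroup.zpowers W) (k : ℤ) :
    D (g * W ^ k) ↔ D g := by
  have hne : ∀ j : ℤ, g * W ^ j ≠ 1 := by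
    intro j hj
    apply hg
    rw [mul_eq_one_iff_eq_inv] at hj
    rw [hj, ← zpow_neg]
    exact Subgroup.zpow_mem_zpowers W (-j)
  induction k using Int.induction_on with
  | zero => simp
  | succ n ih =>
    rw [zpow_add, zpow_one, ← mul_assoc, (hW _).2 (hne n)]
    exact ih
  | pred n ih =>
    have h1 := (hW (g * W ^ (-(n : ℤ) - 1))).2 (hne _)
    rw [← h1, mul_assoc, ← zpow_add_one, sub_add_cancel]
    exact ih

theorem pow_inj_of_ne_one {V : FreeGroup α} (hV : V ≠ 1) {m n : ℕ} (h : V ^ m = V ^ n) : m = n := by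
  have key : ∀ k l : ℕ, k ≤ l → V ^ k = V ^ l → k = l := by
    intro k l hkl hkl2
    obtain ⟨d, rfl⟩ := Nat.exists_eq_add_of_le hkl
    rw [pow_add] at hkl2
    have h1 : V ^ d = 1 := by
      have := mul_left_cancel (a := V ^ k) (b := 1) (c := V ^ d) (by rw [mul_one]; exact hkl2)
      exact this.symm
    by_contra hd
    have hd0 : d ≠ 0 := by omega
    apply hV
    have := (pow_left_inj (M := FreeGroup α) (a := V) (b := 1) hd0).1 (by rw [h1, one_pow])
    exact this
  rcases le_total m n with h1 | h1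
  · exact key m n h1 h
  · exact (key n m h1 h.symm).symm

/-- all sufficiently large powers avoid a finite set -/
theorem exists_avoid {W g : FreeGroup α} (hW : W ≠ 1) {E : Set (FreeGroup α)} (hE : E.Finite) :
    ∃ n : ℕ, 1 ≤ n ∧ g * W ^ n ∉ E ∧ g * (W⁻¹) ^ n ∉ E := by
  have hinj : ∀ V : FreeGroup α, V ≠ 1 → Function.Injective (fun n : ℕ => g * V ^ n) := by
    intro V hV m n hmn
    have h1 : V ^ m = V ^ n := mul_left_cancel hmn
    exact pow_inj_of_ne_one hV h1
  have h1 : {n : ℕ | g * W ^ n ∈ E}.Finite := hE.preimage (hinj W hW).injOn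
  have h2 : {n : ℕ | g * (W⁻¹) ^ n ∈ E}.Finite :=
    hE.preimage (hinj W⁻¹ (inv_ne_one.2 hW)).injOn
  obtain ⟨n, hn⟩ := ((h1.union h2).union (Set.finite_singleton 0)).exists_notMem
  simp only [Set.mem_union, Set.mem_ofPred_eq, Set.mem_singleton_iff, not_or] at hn
  exact ⟨n, by omega, hn.1.1, hn.1.2⟩

theorem ne_one_of_half {D : FreeGroup α → Prop} {W : FreeGroup α}
    (hW : ∀ g, (D (g * W) ↔ D g) ↔ g ≠ 1) : W ≠ 1 := by
  intro h
  subst h
  have := (hW 1).1 (by rw [mul_one])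
  exact this rfl

/-- the exceptional set -/
theorem fin_exc {D D' : FreeGroup α → Prop} (hD : ∀ u, {g | ¬ (D (g * u) ↔ D g)}.Finite)
    (hD' : {g | ¬ (D' g ↔ D g)}.Finite) (u : FreeGroup α) :
    {g | ¬ (D' (g * u) ↔ D g)}.Finite := by
  have h1 : {g | ¬ (D' (g * u) ↔ D g)} ⊆
      (fun g => g * u) ⁻¹' {g | ¬ (D' g ↔ D g)} ∪ {g | ¬ (D (g * u) ↔ D g)} := by
    intro g hg
    by_contra hn
    rw [Set.mem_union, not_or] at hn
    obtain ⟨h2, h3⟩ := hn
    simp only [Set.mem_preimage, Set.mem_ofPred_eq, not_not] at h2 h3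
    apply hg
    rw [h2, h3]
  refine Set.Finite.subset (Set.Finite.union (hD'.preimage ?_) (hD u)) h1
  exact (mul_left_injective u).injOn

theorem lim_mem {D D' : FreeGroup α → Prop} {W : FreeGroup α}
    (hW : ∀ g, (D (g * W) ↔ D g) ↔ g ≠ 1) (hD : ∀ u, {g | ¬ (D (g * u) ↔ D g)}.Finite)
    (hD' : {g | ¬ (D' g ↔ D g)}.Finite) (g u : FreeGroup α) (X Y : Prop)
    (hX : ∀ n : ℕ, 1 ≤ n → (D' (g * W ^ n * u) ↔ X))
    (hY : ∀ n : ℕ, 1 ≤ n → (D' (g * (W⁻¹) ^ n * u) ↔ Y)) (hXY : ¬ (X ↔ Y)) :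
    g ∈ Subgroup.zpowers W := by
  by_contra hg
  obtain ⟨n, hn, h1, h2⟩ := exists_avoid (g := g) (ne_one_of_half hW) (fin_exc hD hD' u)
  simp only [Set.mem_ofPred_eq, not_not] at h1 h2
  apply hXY
  rw [← hX n hn, ← hY n hn, h1, h2]
  have e1 := zpow_const hW hg n
  have e2 := zpow_const hW hg (-n)
  rw [zpow_natCast] at e1
  rw [zpow_neg, zpow_natCast, ← inv_pow] at e2
  rw [e1, e2]

theorem lim_one {D D' : FreeGroup α → Prop} {W : FreeGroup α}
    (hW : ∀ g, (D (g * W) ↔ D g) ↔ g ≠ 1) (hD : ∀ u, {g | ¬ (D (g * u) ↔ D g)}.Finite)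
    (hD' : {g | ¬ (D' g ↔ D g)}.Finite) (u : FreeGroup α) (X Y : Prop)
    (hX : ∀ n : ℕ, 1 ≤ n → (D' (W ^ n * u) ↔ X))
    (hY : ∀ n : ℕ, 1 ≤ n → (D' ((W⁻¹) ^ n * u) ↔ Y)) : ¬ (X ↔ Y) := by
  intro hXY
  have hW1 := ne_one_of_half hW
  obtain ⟨n, hn, h1, h2⟩ := exists_avoid (g := 1) hW1 (fin_exc hD hD' u)
  simp only [Set.mem_ofPred_eq, not_not, one_mul] at h1 h2
  rw [hX n hn] at h1
  rw [hY n hn] at h2
  have e1 : ∀ m : ℕ, D (W ^ (m + 1)) ↔ D W := by
    intro m
    induction m with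
    | zero => simp
    | succ m ih =>
      rw [pow_succ, (hW _).2, ih]
      intro h
      exact absurd (pow_inj_of_ne_one hW1 (h.trans (pow_zero W).symm)) (by omega)
  have e2 : ∀ m : ℕ, D ((W⁻¹) ^ m) ↔ D 1 := by
    intro m
    induction m with
    | zero => simp
    | succ m ih =>
      rw [← ih, ← (hW ((W⁻¹) ^ (m + 1))).2, pow_succ, inv_mul_cancel_right]
      intro h
      exact absurd (pow_inj_of_ne_one (inv_ne_one.2 hW1) (h.trans (pow_zero W⁻¹).symm)) (by omega)
  obtain ⟨m, rfl⟩ : ∃ m, n = m + 1 := ⟨n - 1, by omega⟩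
  have h3 := (hW 1).1
  rw [one_mul] at h3
  apply h3 _ rfl
  rw [← e1 m, ← e2 (m + 1), ← h1, ← h2]
  exact hXY

/-! ### Cones -/

/-- `D'` is constant along outward edges starting at distance at least `M`. -/
def Cone (D' : FreeGroup α → Prop) (M : ℕ) : Prop :=
  ∀ g c, M ≤ g.norm → Out g c → (D' (g * FreeGroup.mk [c]) ↔ D' g)

theorem cone_word {D' : FreeGroup α → Prop} {M : ℕ} (hC : Cone D' M) (u : List (α × Bool)) :
    ∀ q : FreeGroup α, M ≤ q.norm → (q.toWord ++ u).IsChain (fun y z => z ≠ ng y) →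
      (D' (q * FreeGroup.mk u) ↔ D' q) := by
  induction u with
  | nil =>
    intro q _ _
    rw [← FreeGroup.one_eq_mk, mul_one]
  | cons c t ih =>
    intro q hq hc
    have hO : Out q c := (chain_append_iff.1 hc).2 c rfl
    rw [mk_cons, ← mul_assoc, ih (q * FreeGroup.mk [c]), hC q c hq hO]
    · rw [norm_mul_letter hO]; omega
    · rw [toWord_mul_letter hO]
      simpa using hc

theorem cone_word' {D' : FreeGroup α → Prop} {M : ℕ} (hC : Cone D' (M + 1)) (c : α × Bool)
    (t : List (α × Bool)) (q : FreeGroup α) (hq : q.norm = M)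
    (hc : (q.toWord ++ c :: t).IsChain (fun y z => z ≠ ng y)) :
    (D' (q * FreeGroup.mk (c :: t)) ↔ D' (q * FreeGroup.mk [c])) := by
  have hO : Out q c := (chain_append_iff.1 hc).2 c rfl
  rw [mk_cons, ← mul_assoc]
  apply cone_word hC
  · rw [norm_mul_letter hO]; omega
  · rw [toWord_mul_letter hO]
    simpa using hc

/-- Existence of a branching vertex for an optimal modification of the half space. -/
theorem exists_branch [Fintype α] {D : FreeGroup α → Prop} {W : FreeGroup α}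
    (hW : ∀ g, (D (g * W) ↔ D g) ↔ g ≠ 1) (hD : ∀ u, {g | ¬ (D (g * u) ↔ D g)}.Finite) :
    ∃ (D' : FreeGroup α → Prop) (M : ℕ) (p : FreeGroup α) (c c' : α × Bool),
      {g | ¬ (D' g ↔ D g)}.Finite ∧ Cone D' (M + 1) ∧ p.norm = M ∧ Out p c ∧ Out p c' ∧
      D' (p * FreeGroup.mk [c]) ∧ ¬ D' (p * FreeGroup.mk [c']) := by
  classical
  let Q : ℕ → Prop := fun M => ∃ D' : FreeGroup α → Prop, {g | ¬ (D' g ↔ D g)}.Finite ∧ Cone D' M
  have hQ : ∃ M, Q M := by
    have hfin : (⋃ c : α × Bool, {g | ¬ (D (g * FreeGroup.mk [c]) ↔ D g)}).Finite :=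
      Set.finite_iUnion (fun c => hD _)
    obtain ⟨B, hB⟩ := (hfin.image FreeGroup.norm).bddAbove
    refine ⟨B + 1, D, by simp, ?_⟩
    intro g c hg _
    by_contra hn
    have h1 : g ∈ ⋃ c : α × Bool, {g | ¬ (D (g * FreeGroup.mk [c]) ↔ D g)} :=
      Set.mem_iUnion.2 ⟨c, hn⟩
    have := hB (Set.mem_image_of_mem _ h1)
    omega
  have hmin : ∀ m : ℕ, m < Nat.find hQ → ¬ Q m := fun m h => Nat.find_min hQ h
  have hspec := Nat.find_spec hQ
  set M0 := Nat.find hQ with hM0
  clear_value M0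
  cases M0 with
  | zero =>
    exfalso
    obtain ⟨D', hfin, hC⟩ := hspec
    have hconst : ∀ x, D' x ↔ D' 1 := by
      intro x
      have := cone_word hC x.toWord 1 (Nat.zero_le _) (by
        rw [FreeGroup.toWord_one, List.nil_append]; exact toWord_chain x)
      rwa [FreeGroup.mk_toWord, one_mul] at this
    have := lim_one hW hD hfin 1 (D' 1) (D' 1) (fun n _ => hconst _) (fun n _ => hconst _)
    exact this Iff.rfl
  | succ M =>
    obtain ⟨D', hfin, hC⟩ := hspec
    by_contra hno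
    have hkey : ∀ (p : FreeGroup α) (c c' : α × Bool), p.norm = M → Out p c → Out p c' →
        D' (p * FreeGroup.mk [c]) → D' (p * FreeGroup.mk [c']) :=
      fun p c c' h1 h2 h3 h4 => by
        by_contra h5
        exact hno ⟨D', M, p, c, c', hfin, hC, h1, h2, h3, h4, h5⟩
    apply hmin M (Nat.lt_succ_self M)
    refine ⟨fun g => if g.norm = M then (∃ c, Out g c ∧ D' (g * FreeGroup.mk [c])) else D' g, ?_, ?_⟩
    · have hs : {g : FreeGroup α | g.norm = M}.Finite := by
        have := (List.finite_length_eq (α × Bool) M).preimage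
          (f := fun g : FreeGroup α => g.toWord) FreeGroup.toWord_injective.injOn
        exact this
      refine (hfin.union hs).subset ?_
      intro g hg
      simp only [Set.mem_ofPred_eq] at hg
      by_cases hn : g.norm = M
      · right; exact hn
      · left
        rw [if_neg hn] at hg
        exact hg
    · intro g c hg hO
      have h1 : (g * FreeGroup.mk [c]).norm ≠ M := by
        rw [norm_mul_letter hO]; omega
      beta_reduce
      rw [if_neg h1]
      by_cases hn : g.norm = M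
      · rw [if_pos hn]
        constructor
        · intro h; exact ⟨c, hO, h⟩
        · rintro ⟨c', hO', h⟩
          exact hkey g c' c hn hO' hO h
      · rw [if_neg hn]
        exact hC g c (by omega) hO

end Pool.Agent.Lib_4426b5
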