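import Pool.Agent.Lib_4426b5.Ins

set_option autoImplicit false
set_option linter.unusedSectionVars false
set_option linter.unusedVariables false

namespace Pool.Agent.Lib_4426b5

variable {α : Type} [DecidableEq α]

/-- transitions whose turn joins `A` to the complement of `A ∪ {a}` -/
def Cross (a : α × Bool) (A : Finset (α × Bool)) (y z : α × Bool) : Prop :=
  (ng y ∈ A ∧ z ∉ A ∧ z ≠ a) ∨ (z ∈ A ∧ ng y ∉ A ∧ ng y ≠ a)

/-- transitions whose turn joins `A` to `a` -/
def Join (a : α × Bool) (A : Finset (α × Bool)) (y z : α × Bool) : Prop :=
  (ng y ∈ A ∧ z = a) ∨ (z ∈ A ∧ ng y = a)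

theorem del (a : α × Bool) (A : Finset (α × Bool)) (hOk : Ok a A) :
    ∀ (n : ℕ) (y : α × Bool) (s : List (α × Bool)), s.length ≤ n →
      (y :: s).IsChain (fun y z => z ≠ ng y ∧ ¬ Cross a A y z) →
      (∀ z t, s = z :: t → ¬ (ng y = a ∧ z ∈ A)) →
      (∀ x, (y :: s).getLast? = some x → x ≠ a ∧ x ≠ ng a) →
      ∃ s', ins a A (y :: s') = y :: s ∧ (y :: s').getLast? = (y :: s).getLast? ∧
        (y :: s').IsChain (fun y z => z ≠ ng y ∧ ¬ Bad a A y z) ∧ s'.length ≤ s.length ∧
        (¬ (y :: s).IsChain (fun y z => ¬ Join a A y z) → s'.length < s.length) := by
  intro n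
  induction n with
  | zero =>
    intro y s hs hc hh hl
    have : s = [] := List.length_eq_zero_iff.1 (by omega)
    subst this
    refine ⟨[], rfl, rfl, by simp, le_rfl, ?_⟩
    intro h
    exact absurd (by simp) h
  | succ n ih =>
    intro y s hs hc hh hl
    obtain ⟨hO1, hO2⟩ := hOk
    cases s with
    | nil =>
      refine ⟨[], rfl, rfl, by simp, le_rfl, ?_⟩
      intro h
      exact absurd (by simp) h
    | cons z t =>
      rw [List.isChain_cons_cons] at hc
      obtain ⟨⟨hyz, hcr⟩, hc2⟩ := hc
      have hh1 := hh z t rfl
      unfold Cross at hcr
      push Not at hcr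
      by_cases h1 : ng y ∈ A ∧ z = a
      · -- the letter z = a is deleted
        obtain ⟨hyA, rfl⟩ := h1
        cases t with
        | nil =>
          exact absurd rfl (hl z (by simp)).1
        | cons x t =>
          rw [List.isChain_cons_cons] at hc2
          obtain ⟨⟨hzx, hcr2⟩, hc3⟩ := hc2
          unfold Cross at hcr2
          push Not at hcr2
          have hxA : x ∉ A := by
            intro hx
            exact ng_ne z (hcr2.2 hx hO2)
          have hxa : x ≠ ng z := hzx
          obtain ⟨s', h1, h2, h3, h4, h5⟩ := ih x t (by simp at hs; omega) hc3
            (by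
              rintro w t' rfl ⟨hx, _⟩
              apply hxa
              rw [← hx, ng_ng])
            (by intro w hw; apply hl w; rw [List.getLast?_cons_cons, List.getLast?_cons_cons]; exact hw)
          refine ⟨x :: s', ?_, ?_, ?_, ?_, ?_⟩
          · rw [ins_cons_cons, h1]
            unfold β
            rw [if_pos hyA, if_neg hxA]
            rfl
          · rw [List.getLast?_cons_cons, List.getLast?_cons_cons, List.getLast?_cons_cons, h2]
          · refine List.IsChain.cons_cons ⟨?_, ?_⟩ h3
            · rintro rfl; exact hxA hyA
            · unfold Bad
              push Not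
              exact ⟨fun _ => hxa, fun h => absurd h hxA⟩
          · simp only [List.length_cons]; omega
          · intro _; simp only [List.length_cons]; omega
      · by_cases h2 : ng z = a ∧ (∃ x t', t = x :: t' ∧ x ∈ A)
        · obtain ⟨hza, x, t', rfl, hxA⟩ := h2
          rw [List.isChain_cons_cons] at hc2
          obtain ⟨⟨hzx, hcr2⟩, hc3⟩ := hc2
          have hz : z = ng a := by rw [← hza, ng_ng]
          have hzA : z ∉ A := by rw [hz]; exact hO2
          have hyA : ng y ∉ A := by
            intro hy
            have := hcr.1 hy hzA
            rw [hz] at this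
            exact ng_ne a this
          obtain ⟨s', h1, h2, h3, h4, h5⟩ := ih x t' (by simp at hs; omega) hc3
            (by
              rintro w t' rfl ⟨hx, _⟩
              have : x = ng a := by rw [← hx, ng_ng]
              rw [this] at hxA
              exact hO2 hxA)
            (by intro w hw; apply hl w; rw [List.getLast?_cons_cons, List.getLast?_cons_cons]; exact hw)
          refine ⟨x :: s', ?_, ?_, ?_, ?_, ?_⟩
          · rw [ins_cons_cons, h1]
            unfold β
            rw [if_neg hyA, if_pos hxA, hz]
            rfl
          · rw [List.getLast?_cons_cons, List.getLast?_cons_cons, List.getLast?_cons_cons, h2]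
          · refine List.IsChain.cons_cons ⟨?_, ?_⟩ h3
            · rintro rfl; exact hyA hxA
            · unfold Bad
              push Not
              refine ⟨fun h => absurd h hyA, fun _ => ?_⟩
              rintro rfl
              exact hyz hz
          · simp only [List.length_cons]; omega
          · intro _; simp only [List.length_cons]; omega
        · -- z is kept
          push Not at h1 h2
          have hiff : ng y ∈ A ↔ z ∈ A := by
            constructor
            · intro hy
              by_contra hz
              exact h1 hy (hcr.1 hy hz)
            · intro hz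
              by_contra hy
              exact hh1 ⟨hcr.2 hz hy, hz⟩
          obtain ⟨s', g1, g2, g3, g4, g5⟩ := ih z t (by simp at hs; omega) hc2
            (by
              rintro w t' rfl ⟨hx, hw⟩
              exact h2 hx w t' rfl hw)
            (by intro w hw; apply hl w; rw [List.getLast?_cons_cons]; exact hw)
          refine ⟨z :: s', ?_, ?_, ?_, ?_, ?_⟩
          · rw [ins_cons_cons, g1]
            have : β a A y z = [] := by
              unfold β
              by_cases hz : z ∈ A
              · rw [if_pos (hiff.2 hz), if_pos hz]
              · rw [if_neg (fun h => hz (hiff.1 h)), if_neg hz]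
            rw [this]
            rfl
          · rw [List.getLast?_cons_cons, List.getLast?_cons_cons, g2]
          · refine List.IsChain.cons_cons ⟨hyz, ?_⟩ g3
            rintro (⟨hy, hz⟩ | ⟨hz, hy⟩)
            · rw [hiff, hz] at hy
              exact hO2 hy
            · rw [← hiff, hy] at hz
              exact hO2 hz
          · simp only [List.length_cons]; omega
          · intro hJ
            have : ¬ (z :: t).IsChain (fun y z => ¬ Join a A y z) := by
              intro h
              apply hJ
              refine List.IsChain.cons_cons ?_ h
              rintro (⟨hy, hz⟩ | ⟨hz, hy⟩)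
              · exact h1 hy hz
              · exact hh1 ⟨hy, hz⟩
            have := g5 this
            simp only [List.length_cons]; omega

end Pool.Agent.Lib_4426b5
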