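import Pool.Agent.Lib_4426b5.Del

set_option autoImplicit false
set_option linter.unusedSectionVars false
set_option linter.unusedVariables false

namespace Pool.Agent.Lib_4426b5

variable {α : Type} [DecidableEq α]

/-! ### Tracking subwords through the insertion map -/

section
variable (a : α × Bool) (A : Finset (α × Bool))

theorem β_cases (y z : α × Bool) : β a A y z = [] ∨ ∃ b, β a A y z = [b] := by
  unfold β
  split_ifs
  · left; rfl
  · right; exact ⟨_, rfl⟩
  · right; exact ⟨_, rfl⟩
  · left; rfl

theorem track_pre (u : List (α × Bool)) : ∀ v : List (α × Bool), v ≠ [] → v <+: ins a A u →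
    ∃ v', v' ≠ [] ∧ v' <+: u ∧ v <+: ins a A v' ∧ v'.length ≤ v.length := by
  induction u with
  | nil =>
    intro v hv h
    rw [ins_nil] at h
    exact absurd (List.prefix_nil.1 h) hv
  | cons y t ih =>
    intro v hv h
    cases v with
    | nil => exact absurd rfl hv
    | cons x v =>
      rw [ins_cons, List.cons_prefix_cons] at h
      obtain ⟨rfl, h⟩ := h
      cases t with
      | nil =>
        rw [βh_nil, ins_nil, List.append_nil] at h
        rw [List.prefix_nil.1 h]
        exact ⟨[x], by simp, List.prefix_refl _, List.prefix_refl _, le_rfl⟩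
      | cons z t =>
        rw [βh_cons] at h
        cases v with
        | nil =>
          exact ⟨[x], by simp, ⟨z :: t, rfl⟩, List.prefix_refl _, le_rfl⟩
        | cons w v =>
          rcases β_cases a A x z with hβ | ⟨b, hβ⟩
          · rw [hβ, List.nil_append] at h
            obtain ⟨v', h1, h2, h3, h4⟩ := ih (w :: v) (by simp) h
            cases v' with
            | nil => exact absurd rfl h1
            | cons c v' =>
              have hc : c = z := (List.cons_prefix_cons.1 h2).1
              subst hc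
              refine ⟨x :: c :: v', by simp, List.cons_prefix_cons.2 ⟨rfl, h2⟩, ?_, ?_⟩
              · rw [ins_cons_cons, hβ, List.nil_append]
                exact List.cons_prefix_cons.2 ⟨rfl, h3⟩
              · simp only [List.length_cons] at h4 ⊢; omega
          · rw [hβ, List.cons_append, List.nil_append, List.cons_prefix_cons] at h
            obtain ⟨rfl, h⟩ := h
            by_cases hv' : v = []
            · subst hv'
              refine ⟨[x, z], by simp, ⟨t, rfl⟩, ?_, le_rfl⟩
              rw [ins_cons_cons, hβ]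
              exact ⟨[z], rfl⟩
            · obtain ⟨v', h1, h2, h3, h4⟩ := ih v hv' h
              cases v' with
              | nil => exact absurd rfl h1
              | cons c v' =>
                have hc : c = z := (List.cons_prefix_cons.1 h2).1
                subst hc
                refine ⟨x :: c :: v', by simp, List.cons_prefix_cons.2 ⟨rfl, h2⟩, ?_, ?_⟩
                · rw [ins_cons_cons, hβ]
                  exact List.cons_prefix_cons.2 ⟨rfl, List.cons_prefix_cons.2 ⟨rfl, h3⟩⟩
                · simp only [List.length_cons] at h4 ⊢; omega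

theorem track (u : List (α × Bool)) : ∀ v : List (α × Bool), v <:+: ins a A u →
    ∃ v', v' <:+: u ∧ v <:+: ins a A v' ∧ v'.length ≤ max v.length 2 := by
  intro v
  by_cases hv0 : v = []
  · subst hv0
    intro _
    exact ⟨[], List.nil_infix, List.nil_infix, by simp⟩
  induction u with
  | nil =>
    intro h
    rw [ins_nil] at h
    exact absurd (List.infix_nil.1 h) hv0
  | cons y t ih =>
    intro h
    rw [ins_cons, List.infix_cons_iff] at h
    rcases h with h | h
    · obtain ⟨v', h1, h2, h3, h4⟩ := track_pre a A (y :: t) v hv0 (by rw [ins_cons]; exact h)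
      exact ⟨v', h2.isInfix, h3.isInfix, le_trans h4 (le_max_left _ _)⟩
    · have hred : v <:+: ins a A t →
          ∃ v', v' <:+: y :: t ∧ v <:+: ins a A v' ∧ v'.length ≤ max v.length 2 := by
        intro h
        obtain ⟨v', h1, h2, h3⟩ := ih h
        exact ⟨v', h1.trans (List.suffix_cons y t).isInfix, h2, h3⟩
      cases t with
      | nil =>
        rw [βh_nil, ins_nil, List.append_nil] at h
        exact absurd (List.infix_nil.1 h) hv0
      | cons z t =>
        rw [βh_cons] at h
        rcases β_cases a A y z with hβ | ⟨b, hβ⟩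
        · rw [hβ, List.nil_append] at h
          exact hred h
        · rw [hβ, List.cons_append, List.nil_append, List.infix_cons_iff] at h
          rcases h with h | h
          · cases v with
            | nil => exact absurd rfl hv0
            | cons w v =>
              rw [List.cons_prefix_cons] at h
              obtain ⟨rfl, h⟩ := h
              by_cases hv' : v = []
              · subst hv'
                refine ⟨[y, z], List.IsPrefix.isInfix ⟨t, rfl⟩, ?_, by simp⟩
                rw [ins_cons_cons, hβ]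
                exact ⟨[y], [z], rfl⟩
              · obtain ⟨v', h1, h2, h3, h4⟩ := track_pre a A (z :: t) v hv' h
                cases v' with
                | nil => exact absurd rfl h1
                | cons c v' =>
                  have hc : c = z := (List.cons_prefix_cons.1 h2).1
                  subst hc
                  refine ⟨y :: c :: v', (List.cons_prefix_cons.2 ⟨rfl, h2⟩).isInfix, ?_, ?_⟩
                  · rw [ins_cons_cons, hβ]
                    obtain ⟨r, hr⟩ := h3
                    refine ⟨[y], r, ?_⟩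
                    rw [← hr]
                    simp
                  · simp only [List.length_cons] at h4 ⊢; omega
          · exact hred h

end

/-! ### Powers and factors -/

/-- powers of a word -/
def pw (w : List (α × Bool)) (n : ℕ) : List (α × Bool) := (List.replicate n w).flatten

@[simp] theorem pw_zero (w : List (α × Bool)) : pw w 0 = [] := rfl

theorem pw_succ (w : List (α × Bool)) (n : ℕ) : pw w (n + 1) = w ++ pw w n := by
  unfold pw
  rw [List.replicate_succ, List.flatten_cons]

theorem pw_add (w : List (α × Bool)) (m n : ℕ) : pw w (m + n) = pw w m ++ pw w n := by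
  induction m with
  | zero => rw [Nat.zero_add, pw_zero, List.nil_append]
  | succ m ih => rw [Nat.add_right_comm, pw_succ, pw_succ, ih, List.append_assoc]

@[simp] theorem pw_one (w : List (α × Bool)) : pw w 1 = w := by
  rw [pw_succ, pw_zero, List.append_nil]

theorem pw_succ' (w : List (α × Bool)) (n : ℕ) : pw w (n + 1) = pw w n ++ w := by
  rw [pw_add, pw_one]

theorem pw_length (w : List (α × Bool)) (n : ℕ) : (pw w n).length = n * w.length := by
  induction n with
  | zero => simp
  | succ n ih => rw [pw_succ, List.length_append, ih]; ring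

theorem mk_pw (w : List (α × Bool)) (n : ℕ) : FreeGroup.mk (pw w n) = FreeGroup.mk w ^ n := by
  induction n with
  | zero => rw [pw_zero, pow_zero, FreeGroup.one_eq_mk]
  | succ n ih => rw [pw_succ, ← FreeGroup.mul_mk, ih, pow_succ']

/-- The factors of the periodic word with period `w`. -/
def Fact (w : List (α × Bool)) (v : List (α × Bool)) : Prop := ∃ n, v <:+: pw w n

theorem Fact.inf {w v v' : List (α × Bool)} (h : Fact w v) (h' : v' <:+: v) : Fact w v' := by
  obtain ⟨n, hn⟩ := h
  exact ⟨n, h'.trans hn⟩

theorem pw_rot (l r : List (α × Bool)) (n : ℕ) : pw (l ++ r) (n + 1) = l ++ pw (r ++ l) n ++ r := by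
  induction n with
  | zero => simp
  | succ n ih =>
    rw [pw_succ, ih, pw_succ]
    simp [List.append_assoc]

theorem Fact_rot {l r v : List (α × Bool)} (h : Fact (r ++ l) v) : Fact (l ++ r) v := by
  obtain ⟨n, hn⟩ := h
  refine ⟨n + 1, hn.trans ?_⟩
  rw [pw_rot]
  exact ⟨l, r, rfl⟩

theorem Fact_rot_iff {l r v : List (α × Bool)} : Fact (r ++ l) v ↔ Fact (l ++ r) v :=
  ⟨Fact_rot, Fact_rot⟩

theorem chain_of_infix {R : α × Bool → α × Bool → Prop} {u : List (α × Bool)}
    (h : ∀ y z, [y, z] <:+: u → R y z) : u.IsChain R := by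
  induction u with
  | nil => simp
  | cons x u ih =>
    cases u with
    | nil => simp
    | cons y u =>
      refine List.IsChain.cons_cons (h x y (List.IsPrefix.isInfix ⟨u, rfl⟩)) ?_
      apply ih
      intro y' z hyz
      exact h y' z (hyz.trans (List.suffix_cons _ _).isInfix)

theorem chain_fac {R : α × Bool → α × Bool → Prop} {u v : List (α × Bool)}
    (h : u.IsChain R) (hv : v <:+: u) : v.IsChain R := by
  obtain ⟨s, t, rfl⟩ := hv
  exact h.left_of_append.right_of_append

theorem infix_of_chain {R : α × Bool → α × Bool → Prop} {u : List (α × Bool)}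
    (h : u.IsChain R) {y z : α × Bool} (hyz : [y, z] <:+: u) : R y z := by
  have := chain_fac h hyz
  rw [List.isChain_cons_cons] at this
  exact this.1

theorem chain_pw {R : α × Bool → α × Bool → Prop} {h : α × Bool} {s : List (α × Bool)}
    (hc : (h :: s ++ [h]).IsChain R) (n : ℕ) : (pw (h :: s) n ++ [h]).IsChain R := by
  induction n with
  | zero => simp
  | succ n ih =>
    rw [pw_succ, List.append_assoc]
    cases n with
    | zero => simpa using hc
    | succ n =>
      rw [pw_succ] at ih ⊢
      have e : h :: s ++ (h :: s ++ pw (h :: s) n ++ [h])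
        = (h :: s) ++ (h :: (s ++ pw (h :: s) n ++ [h])) := by simp
      have e2 : h :: s ++ pw (h :: s) n ++ [h] = h :: (s ++ pw (h :: s) n ++ [h]) := by simp
      rw [e]
      rw [e2] at ih
      rw [List.isChain_append]
      refine ⟨(List.isChain_append.1 hc).1, ih, ?_⟩
      intro x hx y hy
      simp only [List.head?_cons, Option.mem_def, Option.some.injEq] at hy
      subst hy
      exact (List.isChain_append.1 hc).2.2 x hx h (by simp)

theorem fact_pair_chain {R : α × Bool → α × Bool → Prop} {h : α × Bool} {s : List (α × Bool)}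
    (hc : (h :: s ++ [h]).IsChain R) {y z : α × Bool} (hf : Fact (h :: s) [y, z]) : R y z := by
  obtain ⟨n, hn⟩ := hf
  have h1 := chain_pw hc n
  exact infix_of_chain h1 (hn.trans ⟨[], [h], by simp⟩)

theorem chain_of_fact {R : α × Bool → α × Bool → Prop} {h : α × Bool} {s : List (α × Bool)}
    (hc : ∀ y z, Fact (h :: s) [y, z] → R y z) : (h :: s ++ [h]).IsChain R := by
  apply chain_of_infix
  intro y z hyz
  apply hc
  refine ⟨2, hyz.trans ?_⟩
  refine ⟨[], s, ?_⟩
  rw [pw_succ, pw_one]
  simp

theorem cyc_iff {h : α × Bool} {s : List (α × Bool)} :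
    FreeGroup.IsCyclicallyReduced (h :: s) ↔ (h :: s ++ [h]).IsChain (fun y z => z ≠ ng y) := by
  rw [FreeGroup.isCyclicallyReduced_iff, isReduced_iff, List.isChain_append]
  constructor
  · rintro ⟨h1, h2⟩
    refine ⟨h1, by simp, ?_⟩
    intro x hx y hy
    simp only [List.head?_cons, Option.mem_def, Option.some.injEq] at hy
    subst hy
    exact (red_iff x h).1 (h2 x hx h rfl)
  · rintro ⟨h1, _, h2⟩
    refine ⟨h1, ?_⟩
    intro x hx y hy
    simp only [List.head?_cons, Option.mem_def, Option.some.injEq] at hy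
    subst hy
    exact (red_iff x h).2 (h2 x hx h rfl)

theorem cyc_fact {h : α × Bool} {s : List (α × Bool)}
    (hc : FreeGroup.IsCyclicallyReduced (h :: s)) {y z : α × Bool} (hf : Fact (h :: s) [y, z]) :
    z ≠ ng y := fact_pair_chain (R := fun y z => z ≠ ng y) (cyc_iff.1 hc) hf

/-- cyclically reduced primitive words -/
def Prim (w : List (α × Bool)) : Prop :=
  w ≠ [] ∧ FreeGroup.IsCyclicallyReduced w ∧
    ∃ (φ : MulAut (FreeGroup α)) (i : α), FreeGroup.mk w = φ (FreeGroup.of i)

theorem prim_conj {w w' : List (α × Bool)} (hw : Prim w) (g : FreeGroup α)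
    (h : FreeGroup.mk w' = g * FreeGroup.mk w * g⁻¹) (hne : w' ≠ [])
    (hc : FreeGroup.IsCyclicallyReduced w') : Prim w' := by
  obtain ⟨_, _, φ, i, hφ⟩ := hw
  refine ⟨hne, hc, MulAut.conj g * φ, i, ?_⟩
  rw [h, hφ]
  rfl

theorem cyc_rot {l r : List (α × Bool)} (hc : FreeGroup.IsCyclicallyReduced (l ++ r)) :
    FreeGroup.IsCyclicallyReduced (r ++ l) := by
  cases hrl : r ++ l with
  | nil => simp
  | cons h s =>
    rw [cyc_iff]
    apply chain_of_fact
    intro y z hyz
    rw [← hrl] at hyz
    have h2 := Fact_rot hyz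
    cases hlr : l ++ r with
    | nil =>
      have := congrArg List.length hrl
      have h3 := congrArg List.length hlr
      simp only [List.length_append, List.length_cons, List.length_nil] at this h3
      omega
    | cons h' s' =>
      rw [hlr] at hc h2
      exact cyc_fact hc h2

theorem prim_rot {l r : List (α × Bool)} (hw : Prim (l ++ r)) : Prim (r ++ l) := by
  refine prim_conj hw (FreeGroup.mk l)⁻¹ ?_ ?_ (cyc_rot hw.2.1)
  · rw [← FreeGroup.mul_mk, ← FreeGroup.mul_mk]
    group
  · intro h
    apply hw.1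
    rw [List.append_eq_nil_iff] at h ⊢
    exact ⟨h.2, h.1⟩

/-! ### The insertion map on periodic words -/

section
variable (a : α × Bool) (A : Finset (α × Bool))

theorem J_head (h : α × Bool) (s : List (α × Bool)) (k : α × Bool) :
    ∃ s', J a A (h :: s) k = h :: s' := ⟨_, J_cons a A h s k⟩

theorem ins_pw (h : α × Bool) (s : List (α × Bool)) (n : ℕ) :
    ins a A (pw (h :: s) n ++ [h]) = pw (J a A (h :: s) h) n ++ [h] := by
  induction n with
  | zero => simp
  | succ n ih =>
    rw [pw_succ, List.append_assoc]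
    have : ∃ r, pw (h :: s) n ++ [h] = h :: r := by
      cases n with
      | zero => exact ⟨[], rfl⟩
      | succ n => rw [pw_succ]; exact ⟨_, rfl⟩
    obtain ⟨r, hr⟩ := this
    rw [hr, ins_append_cons, ← hr, ih, pw_succ, List.append_assoc]

theorem fact_ins {h : α × Bool} {s v : List (α × Bool)} (hv : Fact (h :: s) v) :
    Fact (J a A (h :: s) h) (ins a A v) := by
  obtain ⟨n, hn⟩ := hv
  refine ⟨n + 1, ?_⟩
  have h1 : v <:+: pw (h :: s) n ++ [h] := hn.trans ⟨[], [h], by simp⟩
  have h2 := ins_inf a A h1
  rw [ins_pw] at h2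
  refine h2.trans ?_
  rw [pw_succ', J_cons]
  exact ⟨[], _, by simp [List.append_assoc]; rfl⟩

theorem fact_track {h : α × Bool} {s v : List (α × Bool)} (hv : Fact (J a A (h :: s) h) v) :
    ∃ v', Fact (h :: s) v' ∧ v <:+: ins a A v' ∧ v'.length ≤ max v.length 2 := by
  obtain ⟨n, hn⟩ := hv
  have h1 : v <:+: ins a A (pw (h :: s) n ++ [h]) := by
    rw [ins_pw]
    exact hn.trans ⟨[], [h], by simp⟩
  obtain ⟨v', h2, h3, h4⟩ := track a A _ v h1
  refine ⟨v', ⟨n + 1, h2.trans ?_⟩, h3, h4⟩
  rw [pw_succ']
  exact ⟨[], s, by simp [List.append_assoc]⟩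

theorem fact_pair_iff {h : α × Bool} {s : List (α × Bool)} (y z : α × Bool) :
    Fact (J a A (h :: s) h) [y, z] ↔
      ∃ y' z', Fact (h :: s) [y', z'] ∧ [y, z] <:+: ins a A [y', z'] := by
  constructor
  · intro hf
    obtain ⟨v', h1, h2, h3⟩ := fact_track a A hf
    match v', h1, h2, h3 with
    | [], h1, h2, h3 =>
      rw [ins_nil] at h2
      exact absurd (List.infix_nil.1 h2) (by simp)
    | [x], h1, h2, h3 =>
      rw [ins_singleton] at h2
      have := h2.length_le
      simp at this
    | [x, x'], h1, h2, h3 => exact ⟨x, x', h1, h2⟩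
    | x :: x' :: x'' :: r, h1, h2, h3 =>
      simp at h3
  · rintro ⟨y', z', h1, h2⟩
    exact (fact_ins a A h1).inf h2

/-- insertion preserves primitivity -/
theorem prim_J (hOk : Ok a A) {h : α × Bool} {s : List (α × Bool)} (hw : Prim (h :: s))
    (hbad : ∀ y z, Fact (h :: s) [y, z] → ¬ Bad a A y z) : Prim (J a A (h :: s) h) := by
  have h1 : (h :: s ++ [h]).IsChain (fun y z => z ≠ ng y ∧ ¬ Bad a A y z) :=
    chain_of_fact (fun y z hyz => ⟨cyc_fact hw.2.1 hyz, hbad y z hyz⟩)
  have h2 := chain_ins a A hOk h1
  rw [ins_concat] at h2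
  have h3 := mk_J a A (h :: s) h rfl
  refine ⟨by rw [J_cons]; simp, ?_, ?_⟩
  · rw [J_cons] at h2 ⊢
    rw [cyc_iff]
    exact h2
  · obtain ⟨_, _, φ, i, hφ⟩ := hw
    refine ⟨MulAut.conj (κ a A h)⁻¹ * (ρE a A hOk * φ), i, ?_⟩
    rw [h3, hφ]
    show _ = (κ a A h)⁻¹ * ρ a A (φ (FreeGroup.of i)) * (κ a A h)⁻¹⁻¹
    rw [inv_inv]

/-- The reduction step. -/
theorem reduce_step (hOk : Ok a A) {w : List (α × Bool)} (hw : Prim w)
    (hcross : ∀ y z, Fact w [y, z] → ¬ Cross a A y z)
    (hjoin : ∃ y z, Fact w [y, z] ∧ Join a A y z) :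
    ∃ (h : α × Bool) (s : List (α × Bool)), Prim (h :: s) ∧ (h :: s).length < w.length ∧
      (∀ y z, Fact (h :: s) [y, z] → ¬ Bad a A y z) ∧
      (∀ v, Fact (J a A (h :: s) h) v ↔ Fact w v) := by
  have hmem : ∀ {v : List (α × Bool)}, Fact w v → ∀ x ∈ v, x ∈ w := by
    intro v hv x hx
    obtain ⟨n, hn⟩ := hv
    have h1 := hn.subset hx
    unfold pw at h1
    rw [List.mem_flatten] at h1
    obtain ⟨l, hl, hxl⟩ := h1
    rw [List.mem_replicate] at hl
    rw [hl.2] at hxl
    exact hxl
  obtain ⟨hO1, hO2⟩ := id hOk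
  obtain ⟨x, hxw, hxa, hxa'⟩ : ∃ x ∈ w, x ≠ a ∧ x ≠ ng a := by
    obtain ⟨y, z, hf, hj⟩ := hjoin
    rcases hj with ⟨hy, hz⟩ | ⟨hz, hy⟩
    · refine ⟨y, hmem hf y (by simp), ?_, ?_⟩
      · rintro rfl; exact hO2 hy
      · rintro rfl; rw [ng_ng] at hy; exact hO1 hy
    · refine ⟨z, hmem hf z (by simp), ?_, ?_⟩
      · rintro rfl; exact hO1 hz
      · rintro rfl; exact hO2 hz
  obtain ⟨l, r, rfl⟩ := List.append_of_mem hxw
  have hw2 : Prim (x :: (r ++ l)) := prim_rot hw
  have hfact : ∀ v, Fact (x :: (r ++ l)) v ↔ Fact (l ++ x :: r) v := fun v => by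
    have := @Fact_rot_iff α _ l (x :: r) v
    rw [List.cons_append] at this
    exact this
  have hchain : (x :: (r ++ l) ++ [x]).IsChain (fun y z => z ≠ ng y ∧ ¬ Cross a A y z) :=
    chain_of_fact (fun y z hyz => ⟨cyc_fact hw2.2.1 hyz, hcross y z ((hfact _).1 hyz)⟩)
  have hnj : ¬ (x :: (r ++ l) ++ [x]).IsChain (fun y z => ¬ Join a A y z) := by
    intro hc
    obtain ⟨y, z, hf, hj⟩ := hjoin
    exact fact_pair_chain (R := fun y z => ¬ Join a A y z) hc ((hfact _).2 hf) hj
  obtain ⟨s', h1, h2, h3, h4, h5⟩ := del a A hOk (r ++ l ++ [x]).length x (r ++ l ++ [x]) le_rfl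
    hchain (by rintro z t _ ⟨h, _⟩; apply hxa'; rw [← h, ng_ng])
    (by
      intro y hy
      rw [← List.cons_append, List.getLast?_concat] at hy
      simp only [Option.some.injEq] at hy
      subst hy
      exact ⟨hxa, hxa'⟩)
  have h5 := h5 hnj
  rw [← List.cons_append, List.getLast?_concat] at h2
  rcases List.eq_nil_or_concat s' with hs | ⟨s, k, hs⟩
  · subst hs
    rw [ins_singleton] at h1
    simp at h1
  · rw [List.concat_eq_append] at hs
    subst hs
    rw [← List.cons_append, List.getLast?_concat] at h2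
    simp only [Option.some.injEq] at h2
    subst h2
    rw [← List.cons_append, ← List.cons_append, ins_concat, List.append_left_inj] at h1
    have hbad : ∀ y z, Fact (k :: s) [y, z] → ¬ Bad a A y z := fun y z hyz =>
      (fact_pair_chain (R := fun y z => z ≠ ng y ∧ ¬ Bad a A y z) h3 hyz).2
    have hcyc : FreeGroup.IsCyclicallyReduced (k :: s) := by
      rw [cyc_iff]
      rw [List.cons_append]
      exact h3.imp (fun y z hyz => hyz.1)
    refine ⟨k, s, ⟨by simp, hcyc, ?_⟩, ?_, hbad, ?_⟩
    · have h6 := mk_J a A (k :: s) k rfl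
      rw [h1] at h6
      obtain ⟨_, _, φ, i, hφ⟩ := hw2
      refine ⟨(ρE a A hOk)⁻¹ * (MulAut.conj (κ a A k) * φ), i, ?_⟩
      show _ = (ρE a A hOk)⁻¹ (κ a A k * φ (FreeGroup.of i) * (κ a A k)⁻¹)
      rw [← hφ, h6]
      rw [← ρE_apply a A hOk]
      have : κ a A k * ((κ a A k)⁻¹ * (ρE a A hOk) (FreeGroup.mk (k :: s)) * κ a A k)
        * (κ a A k)⁻¹ = (ρE a A hOk) (FreeGroup.mk (k :: s)) := by group
      rw [this, MulAut.inv_apply_self]
    · simp only [List.length_append, List.length_cons, List.length_nil] at h5 ⊢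
      omega
    · intro v
      rw [h1]
      exact hfact v

end

end Pool.Agent.Lib_4426b5
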