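import Mathlib

set_option autoImplicit false
set_option linter.unusedSectionVars false
set_option linter.unusedVariables false

namespace Pool.Agent.Lib_4426b5

/-! ### Primitive recursiveness of the closure computation, in generic form -/

section
variable {Λ M T : Type} [Primcodable Λ] [Primcodable M] [Primcodable T]

/-- generic insertion -/
def gins (b : M → Λ → Λ → List Λ) (m : M) (v : List Λ) : List Λ :=
  v.foldr (fun y acc => y :: ((acc.head?).elim [] (b m y) ++ acc)) []

/-- generic single move -/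
def gone (b : M → Λ → Λ → List Λ) (ad : M → T → Bool) (d : M → T → T) (B : ℕ)
    (s : List Λ × T) (m : M) : List (List Λ × T) :=
  bif (ad m s.2 && decide ((gins b m s.1).length ≤ B)) then [(gins b m s.1, d m s.2)] else []

/-- generic successors -/
def gsuccs (b : M → Λ → Λ → List Λ) (ad : M → T → Bool) (d : M → T → T) (ms : List M) (B : ℕ)
    (s : List Λ × T) : List (List Λ × T) :=
  (s.1.tail, s.2) :: (s.1.take (s.1.length - 1), s.2) :: ms.flatMap (gone b ad d B s)

/-- generic initial states -/
def gbase (t : Λ → T) (ls : List Λ) (B : ℕ) : List (List Λ × T) :=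
  ls.map (fun c => ((List.range B).map (fun _ => c), t c))

/-- generic closure -/
def gcl (b : M → Λ → Λ → List Λ) (ad : M → T → Bool) (d : M → T → T) (ms : List M)
    (t : Λ → T) (ls : List Λ) (B k : ℕ) : List (List Λ × T) :=
  Nat.rec (gbase t ls B) (fun _ ih => ih ++ ih.flatMap (gsuccs b ad d ms B)) k

theorem prim_gins (b : M → Λ → Λ → List Λ)
    (hb : Primrec (fun p : (M × Λ) × Λ => b p.1.1 p.1.2 p.2)) :
    Primrec₂ (fun (m : M) (v : List Λ) => gins b m v) := by
  have helim : Primrec₂ (fun (q : M × Λ) (o : Option Λ) => o.elim [] (b q.1 q.2)) := by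
    have e1 : Primrec (fun x : ((M × Λ) × Option Λ) × Λ => (x.1.1, x.2)) :=
      Primrec.pair (Primrec.fst.comp Primrec.fst) Primrec.snd
    have e4 : Primrec₂ (fun (x : (M × Λ) × Option Λ) (z : Λ) => b x.1.1 x.1.2 z) :=
      hb.comp e1
    have h := Primrec.option_casesOn (α := (M × Λ) × Option Λ)
      (o := fun x => x.2) (f := fun _ => ([] : List Λ)) Primrec.snd (Primrec.const []) e4
    refine Primrec.of_eq h ?_
    rintro ⟨q, o⟩
    cases o <;> rfl
  have hstep : Primrec₂ (fun (x : M × List Λ) (p : Λ × List Λ) =>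
      p.1 :: ((p.2.head?).elim [] (b x.1 p.1) ++ p.2)) := by
    apply Primrec.list_cons.comp (Primrec.fst.comp Primrec.snd)
    apply Primrec.list_append.comp _ (Primrec.snd.comp Primrec.snd)
    have e1 : Primrec (fun x : (M × List Λ) × (Λ × List Λ) => (x.1.1, x.2.1)) :=
      Primrec.pair (Primrec.fst.comp Primrec.fst) (Primrec.fst.comp Primrec.snd)
    have e2 : Primrec (fun x : (M × List Λ) × (Λ × List Λ) => x.2.2.head?) :=
      Primrec.list_head?.comp (Primrec.snd.comp Primrec.snd)
    exact helim.comp e1 e2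
  exact Primrec.list_foldr (α := M × List Λ) (f := fun x => x.2)
    (g := fun _ => ([] : List Λ)) Primrec.snd (Primrec.const []) hstep

theorem prim_gone (b : M → Λ → Λ → List Λ) (ad : M → T → Bool) (d : M → T → T)
    (hb : Primrec (fun p : (M × Λ) × Λ => b p.1.1 p.1.2 p.2))
    (had : Primrec (fun p : M × T => ad p.1 p.2)) (hd : Primrec (fun p : M × T => d p.1 p.2)) :
    Primrec (fun x : (ℕ × (List Λ × T)) × M => gone b ad d x.1.1 x.1.2 x.2) := by
  have hT : Primrec (fun x : (ℕ × (List Λ × T)) × M => x.1.2.2) :=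
    Primrec.snd.comp (Primrec.snd.comp Primrec.fst)
  have hv : Primrec (fun x : (ℕ × (List Λ × T)) × M => x.1.2.1) :=
    Primrec.fst.comp (Primrec.snd.comp Primrec.fst)
  have hB : Primrec (fun x : (ℕ × (List Λ × T)) × M => x.1.1) :=
    Primrec.fst.comp Primrec.fst
  have hins : Primrec (fun x : (ℕ × (List Λ × T)) × M => gins b x.2 x.1.2.1) :=
    (prim_gins b hb).comp Primrec.snd hv
  have hmt : Primrec (fun x : (ℕ × (List Λ × T)) × M => (x.2, x.1.2.2)) :=
    Primrec.pair Primrec.snd hT
  have hadm : Primrec (fun x : (ℕ × (List Λ × T)) × M => ad x.2 x.1.2.2) := had.comp hmt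
  have hδ : Primrec (fun x : (ℕ × (List Λ × T)) × M => d x.2 x.1.2.2) := hd.comp hmt
  have hle : Primrec (fun x : (ℕ × (List Λ × T)) × M =>
      decide ((gins b x.2 x.1.2.1).length ≤ x.1.1)) :=
    (Primrec.nat_le.comp (Primrec.list_length.comp hins) hB).decide
  unfold gone
  apply Primrec.cond
  · exact Primrec.and.comp hadm hle
  · exact Primrec.list_cons.comp (Primrec.pair hins hδ) (Primrec.const [])
  · exact Primrec.const []

theorem prim_gsuccs (b : M → Λ → Λ → List Λ) (ad : M → T → Bool) (d : M → T → T) (ms : List M)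
    (hb : Primrec (fun p : (M × Λ) × Λ => b p.1.1 p.1.2 p.2))
    (had : Primrec (fun p : M × T => ad p.1 p.2)) (hd : Primrec (fun p : M × T => d p.1 p.2)) :
    Primrec₂ (fun (B : ℕ) (s : List Λ × T) => gsuccs b ad d ms B s) := by
  unfold gsuccs
  have hv : Primrec (fun x : ℕ × (List Λ × T) => x.2.1) := Primrec.fst.comp Primrec.snd
  have hT : Primrec (fun x : ℕ × (List Λ × T) => x.2.2) := Primrec.snd.comp Primrec.snd
  apply Primrec.list_cons.comp
  · exact Primrec.pair (Primrec.list_tail.comp hv) hT
  · apply Primrec.list_cons.comp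
    · refine Primrec.pair ?_ hT
      exact Primrec.list_take.comp (Primrec.nat_sub.comp (Primrec.list_length.comp hv)
        (Primrec.const 1)) hv
    · exact Primrec.list_flatMap (Primrec.const ms) (prim_gone b ad d hb had hd)

theorem prim_gbase (t : Λ → T) (ht : Primrec t) (ls : List Λ) :
    Primrec (fun B : ℕ => gbase t ls B) := by
  unfold gbase
  apply Primrec.list_map (Primrec.const ls)
  apply Primrec.pair
  · exact Primrec.list_map (Primrec.list_range.comp Primrec.fst) (Primrec.snd.comp Primrec.fst)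
  · exact ht.comp Primrec.snd

theorem prim_gcl (b : M → Λ → Λ → List Λ) (ad : M → T → Bool) (d : M → T → T) (ms : List M)
    (hb : Primrec (fun p : (M × Λ) × Λ => b p.1.1 p.1.2 p.2))
    (had : Primrec (fun p : M × T => ad p.1 p.2)) (hd : Primrec (fun p : M × T => d p.1 p.2))
    (t : Λ → T) (ht : Primrec t) (ls : List Λ) :
    Primrec₂ (fun (B k : ℕ) => gcl b ad d ms t ls B k) := by
  unfold gcl
  refine Primrec.nat_rec' (f := fun p : ℕ × ℕ => p.2) (g := fun p : ℕ × ℕ => gbase t ls p.1)
    (h := fun (p : ℕ × ℕ) (q : ℕ × List (List Λ × T)) =>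
      q.2 ++ q.2.flatMap (gsuccs b ad d ms p.1))
    Primrec.snd ((prim_gbase t ht ls).comp Primrec.fst) ?_
  apply Primrec.list_append.comp (Primrec.snd.comp Primrec.snd)
  exact Primrec.list_flatMap (Primrec.snd.comp Primrec.snd)
    ((prim_gsuccs b ad d ms hb had hd).comp
      (Primrec.fst.comp (Primrec.fst.comp Primrec.fst)) Primrec.snd)

theorem prim_pow : Primrec₂ (fun a b : ℕ => a ^ b) := Primrec₂.unpaired'.1 Nat.Primrec.pow

/-- generic search -/
def gsearch (b : M → Λ → Λ → List Λ) (ad : M → T → Bool) (d : M → T → T) (ms : List M)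
    (t : Λ → T) (ls : List Λ) (c e : ℕ) (v : List Λ) : List (List Λ × T) :=
  gcl b ad d ms t ls (2 * max v.length 2) ((c + 1) ^ (2 * max v.length 2) * e)

theorem prim_gsearch (b : M → Λ → Λ → List Λ) (ad : M → T → Bool) (d : M → T → T) (ms : List M)
    (hb : Primrec (fun p : (M × Λ) × Λ => b p.1.1 p.1.2 p.2))
    (had : Primrec (fun p : M × T => ad p.1 p.2)) (hd : Primrec (fun p : M × T => d p.1 p.2))
    (t : Λ → T) (ht : Primrec t) (ls : List Λ) (c e : ℕ) :
    Primrec (fun v : List Λ => gsearch b ad d ms t ls c e v) := by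
  have hB : Primrec (fun v : List Λ => 2 * max v.length 2) :=
    Primrec.nat_mul.comp (Primrec.const 2)
      (Primrec.nat_max.comp Primrec.list_length (Primrec.const 2))
  have hbd : Primrec (fun B : ℕ => (c + 1) ^ B * e) :=
    Primrec.nat_mul.comp (prim_pow.comp (Primrec.const (c + 1)) Primrec.id) (Primrec.const e)
  exact (prim_gcl b ad d ms hb had hd t ht ls).comp hB (hbd.comp hB)

theorem prim_gpred [DecidableEq Λ] (b : M → Λ → Λ → List Λ) (ad : M → T → Bool) (d : M → T → T)
    (ms : List M)
    (hb : Primrec (fun p : (M × Λ) × Λ => b p.1.1 p.1.2 p.2))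
    (had : Primrec (fun p : M × T => ad p.1 p.2)) (hd : Primrec (fun p : M × T => d p.1 p.2))
    (t : Λ → T) (ht : Primrec t) (ls : List Λ) (c e : ℕ) :
    PrimrecPred (fun v : List Λ => ∃ s ∈ gsearch b ad d ms t ls c e v, s.1 = v) := by
  have h1 : PrimrecRel (fun (s : List Λ × T) (v : List Λ) => s.1 = v) :=
    Primrec.eq.comp (Primrec.fst.comp Primrec.fst) Primrec.snd
  exact (PrimrecRel.exists_mem_list h1).comp
    (prim_gsearch b ad d ms hb had hd t ht ls c e) Primrec.id

/-- with finite types all the combinatorial data are automatically primitive recursive -/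
theorem prim_gpred_finite [DecidableEq Λ] [Finite Λ] [Finite M] [Finite T]
    (b : M → Λ → Λ → List Λ) (ad : M → T → Bool) (d : M → T → T)
    (ms : List M) (t : Λ → T) (ls : List Λ) (c e : ℕ) :
    PrimrecPred (fun v : List Λ => ∃ s ∈ gsearch b ad d ms t ls c e v, s.1 = v) :=
  prim_gpred b ad d ms (Primrec.dom_finite _) (Primrec.dom_finite _) (Primrec.dom_finite _) t
    (Primrec.dom_finite _) ls c e

end

/-- The same for finite types without chosen codings of the auxiliary types. -/
theorem prim_gpred_fintype {Λ M T : Type} [Primcodable Λ] [DecidableEq Λ] [Finite Λ]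
    [Fintype M] [Fintype T]
    (b : M → Λ → Λ → List Λ) (ad : M → T → Bool) (d : M → T → T)
    (ms : List M) (t : Λ → T) (ls : List Λ) (c e : ℕ) :
    PrimrecPred (fun v : List Λ => ∃ s ∈ gsearch b ad d ms t ls c e v, s.1 = v) := by
  let _ : Primcodable M := Primcodable.ofEquiv (Fin (Fintype.card M)) (Fintype.equivFin M)
  let _ : Primcodable T := Primcodable.ofEquiv (Fin (Fintype.card T)) (Fintype.equivFin T)
  exact prim_gpred_finite b ad d ms t ls c e

end Pool.Agent.Lib_4426b5
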