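import Pool.Agent.Lib_4426b5.Comp
import Pool.Agent.Lib_4426b5.PrimG

set_option autoImplicit false
set_option linter.unusedSectionVars false
set_option linter.unusedVariables false

namespace Pool.Agent.Lib_4426b5

section
variable {α : Type} [DecidableEq α] [Fintype α]

theorem gins_eq (m : MM α) (v : List (α × Bool)) :
    gins (fun (m : MM α) y z => β m.1 m.2 y z) m v = ins m.1 m.2 v := by
  unfold gins
  induction v with
  | nil => rfl
  | cons y t ih =>
    rw [List.foldr_cons, ih, ins_cons]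
    cases t <;> rfl

theorem gone_eq (B : ℕ) (s : ST α) (m : MM α) :
    gone (fun (m : MM α) y z => β m.1 m.2 y z) adm (fun m T => δ m.1 m.2 T) B s m
      = one B s m := by
  unfold gone one
  rw [gins_eq]

theorem gsuccs_eq (B : ℕ) (s : ST α) :
    gsuccs (fun (m : MM α) y z => β m.1 m.2 y z) adm (fun m T => δ m.1 m.2 T) (mvs α) B s
      = succs B s := by
  unfold gsuccs succs
  have : gone (fun (m : MM α) y z => β m.1 m.2 y z) adm (fun m T => δ m.1 m.2 T) B s
      = one B s := by
    funext m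
    exact gone_eq B s m
  rw [this]

theorem gsuccs_eq' (B : ℕ) :
    gsuccs (fun (m : MM α) y z => β m.1 m.2 y z) adm (fun m T => δ m.1 m.2 T) (mvs α) B
      = succs B := by
  funext s
  exact gsuccs_eq B s

theorem gcl_eq (B k : ℕ) :
    gcl (fun (m : MM α) y z => β m.1 m.2 y z) adm (fun m T => δ m.1 m.2 T) (mvs α)
      (fun c => ({(c, c)} : TT α)) (lets α) B k = cl α B k := by
  unfold gcl cl
  rw [gsuccs_eq' B]
  rfl

theorem occ_iff_search [Nontrivial α] (v : List (α × Bool)) :
    Occ v ↔ ∃ s ∈ gsearch (fun (m : MM α) y z => β m.1 m.2 y z) adm (fun m T => δ m.1 m.2 T)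
      (mvs α) (fun c => ({(c, c)} : TT α)) (lets α) (Fintype.card (α × Bool))
      (Fintype.card (TT α)) v, s.1 = v := by
  rw [occ_iff]
  unfold gsearch
  rw [gcl_eq]
  constructor
  · rintro ⟨T, hT⟩
    exact ⟨(v, T), reach_iff_cl.1 hT, rfl⟩
  · rintro ⟨⟨v', T⟩, hs, rfl⟩
    exact ⟨T, reach_iff_cl.2 hs⟩

end

theorem main {r : ℕ} [Nontrivial (Fin r)] :
    ComputablePred (fun v : List (Fin r × Bool) => ¬ Occ v) := by
  have h := (prim_gpred_fintype (Λ := Fin r × Bool) (M := MM (Fin r)) (T := TT (Fin r))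
    (fun (m : MM (Fin r)) y z => β m.1 m.2 y z) adm (fun m T => δ m.1 m.2 T)
      (mvs (Fin r)) (fun c => ({(c, c)} : TT (Fin r))) (lets (Fin r))
      (Fintype.card (Fin r × Bool)) (Fintype.card (TT (Fin r)))).not
  have h2 : PrimrecPred (fun v : List (Fin r × Bool) => ¬ Occ v) :=
    h.of_eq (fun v => by rw [occ_iff_search])
  obtain ⟨hd, hp⟩ := h2
  exact ⟨hd, hp.to_comp⟩

end Pool.Agent.Lib_4426b5
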