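import Pool.Agent.Lib_4426b5.Fact

set_option autoImplicit false
set_option linter.unusedSectionVars false
set_option linter.unusedVariables false

namespace Pool.Agent.Lib_4426b5

variable {α : Type} [DecidableEq α]

/-! ### Reduced words and outward letters -/

theorem toWord_mk_red {u : List (α × Bool)} (hu : u.IsChain (fun y z => z ≠ ng y)) :
    (FreeGroup.mk u).toWord = u := by
  rw [FreeGroup.toWord_mk]
  exact (isReduced_iff.2 hu).reduce_eq

theorem toWord_chain (p : FreeGroup α) : p.toWord.IsChain (fun y z => z ≠ ng y) :=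
  isReduced_iff.1 FreeGroup.isReduced_toWord

/-- the letter `c` leads away from the base point at the vertex `p` -/
def Out (p : FreeGroup α) (c : α × Bool) : Prop := p.toWord.getLast? ≠ some (ng c)

theorem chain_append_iff {p : FreeGroup α} {u : List (α × Bool)} :
    (p.toWord ++ u).IsChain (fun y z => z ≠ ng y) ↔
      u.IsChain (fun y z => z ≠ ng y) ∧ ∀ c, u.head? = some c → Out p c := by
  rw [List.isChain_append]
  constructor
  · rintro ⟨_, h1, h2⟩
    refine ⟨h1, ?_⟩
    intro c hc hl
    have := h2 (ng c) hl c hc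
    rw [ng_ng] at this
    exact this rfl
  · rintro ⟨h1, h2⟩
    refine ⟨toWord_chain p, h1, ?_⟩
    intro x hx y hy h
    apply h2 y hy
    rw [h, ng_ng]
    exact hx

theorem toWord_mul_red {p : FreeGroup α} {u : List (α × Bool)}
    (hu : u.IsChain (fun y z => z ≠ ng y)) (h : ∀ c, u.head? = some c → Out p c) :
    (p * FreeGroup.mk u).toWord = p.toWord ++ u := by
  have h1 : p * FreeGroup.mk u = FreeGroup.mk (p.toWord ++ u) := by
    rw [← FreeGroup.mul_mk, FreeGroup.mk_toWord]
  rw [h1, toWord_mk_red (chain_append_iff.2 ⟨hu, h⟩)]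

theorem toWord_mul_letter {p : FreeGroup α} {c : α × Bool} (h : Out p c) :
    (p * FreeGroup.mk [c]).toWord = p.toWord ++ [c] := by
  apply toWord_mul_red (by simp)
  intro d hd
  simp only [List.head?_cons, Option.some.injEq] at hd
  rw [← hd]; exact h

theorem norm_mul_letter {p : FreeGroup α} {c : α × Bool} (h : Out p c) :
    (p * FreeGroup.mk [c]).norm = p.norm + 1 := by
  unfold FreeGroup.norm
  rw [toWord_mul_letter h, List.length_append]
  rfl

theorem out_one (c : α × Bool) : Out (1 : FreeGroup α) c := by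
  unfold Out
  rw [FreeGroup.toWord_one]
  simp

/-! ### The half space of a basis element -/

/-- words starting with the letter `(i, true)` -/
def D0 (i : α) (h : FreeGroup α) : Prop := h.toWord.head? = some (i, true)

theorem D0_letter (i : α) (c : α × Bool) (h : FreeGroup α) (h1 : h ≠ 1)
    (h2 : h ≠ FreeGroup.mk [ng c]) : D0 i (h * FreeGroup.mk [c]) ↔ D0 i h := by
  by_cases hO : Out h c
  · unfold D0
    rw [toWord_mul_letter hO]
    cases hw : h.toWord with
    | nil => exact absurd (FreeGroup.toWord_eq_nil_iff.1 hw) h1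
    | cons x t => rfl
  · unfold Out at hO
    push Not at hO
    rcases List.eq_nil_or_concat h.toWord with hw | ⟨L, d, hw⟩
    · rw [hw] at hO; simp at hO
    · rw [List.concat_eq_append] at hw
      rw [hw, List.getLast?_concat] at hO
      simp only [Option.some.injEq] at hO
      subst hO
      have e1 : h = FreeGroup.mk L * FreeGroup.mk [ng c] := by
        rw [FreeGroup.mul_mk, ← hw, FreeGroup.mk_toWord]
      have e2 : h * FreeGroup.mk [c] = FreeGroup.mk L := by
        rw [e1, mk_ng]; group
      have hL : L.IsChain (fun y z => z ≠ ng y) := by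
        have := toWord_chain h
        rw [hw, List.isChain_append] at this
        exact this.1
      unfold D0
      rw [e2, hw, toWord_mk_red hL]
      cases L with
      | nil =>
        exfalso
        apply h2
        rw [e1, ← FreeGroup.one_eq_mk, one_mul]
      | cons x t => rfl

theorem D0_gen (i : α) (h : FreeGroup α) :
    (D0 i (h * FreeGroup.mk [(i, true)]) ↔ D0 i h) ↔ h ≠ 1 := by
  constructor
  · intro h1 h2
    subst h2
    unfold D0 at h1
    rw [one_mul, FreeGroup.toWord_one, toWord_mk_red (by simp)] at h1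
    simp at h1
  · intro h1
    by_cases h2 : h = FreeGroup.mk [ng (i, true)]
    · subst h2
      unfold D0
      rw [mk_ng, inv_mul_cancel, FreeGroup.toWord_one, ← mk_ng, toWord_mk_red (by simp)]
      unfold ng
      simp
    · exact D0_letter i (i, true) h h1 h2

/-- finite coboundary for letters implies finite coboundary for all elements -/
theorem fin_all {D : FreeGroup α → Prop}
    (h : ∀ c : α × Bool, {g | ¬ (D (g * FreeGroup.mk [c]) ↔ D g)}.Finite) (u : FreeGroup α) :
    {g | ¬ (D (g * u) ↔ D g)}.Finite := by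
  rw [← FreeGroup.mk_toWord (x := u)]
  generalize u.toWord = l
  induction l with
  | nil =>
    rw [← FreeGroup.one_eq_mk]
    simp
  | cons c t ih =>
    have h1 : {g | ¬ (D (g * FreeGroup.mk (c :: t)) ↔ D g)} ⊆
        (fun g => g * FreeGroup.mk [c]) ⁻¹' {g | ¬ (D (g * FreeGroup.mk t) ↔ D g)} ∪
          {g | ¬ (D (g * FreeGroup.mk [c]) ↔ D g)} := by
      intro g hg
      by_contra hn
      rw [Set.mem_union, not_or] at hn
      obtain ⟨h2, h3⟩ := hn
      simp only [Set.mem_preimage, Set.mem_ofPred_eq, not_not] at h2 h3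
      apply hg
      rw [mk_cons, ← mul_assoc, h2, h3]
    refine Set.Finite.subset (Set.Finite.union (ih.preimage ?_) (h c)) h1
    exact (mul_left_injective (FreeGroup.mk [c])).injOn

/-- The half space attached to a primitive element. -/
theorem exists_half (φ : MulAut (FreeGroup α)) (i : α) :
    ∃ D : FreeGroup α → Prop, (∀ u, {g | ¬ (D (g * u) ↔ D g)}.Finite) ∧
      ∀ g, (D (g * φ (FreeGroup.of i)) ↔ D g) ↔ g ≠ 1 := by
  refine ⟨fun g => D0 i (φ⁻¹ g), ?_, ?_⟩
  · intro u
    have h1 : ∀ v, {g | ¬ (D0 i (g * v) ↔ D0 i g)}.Finite := by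
      apply fin_all
      intro c
      refine Set.Finite.subset (Set.toFinite {1, FreeGroup.mk [ng c]}) ?_
      intro g hg
      by_contra hn
      simp only [Set.mem_insert_iff, Set.mem_singleton_iff, not_or] at hn
      exact hg (D0_letter i c g hn.1 hn.2)
    have h2 := (h1 (φ⁻¹ u)).preimage (f := fun g => φ⁻¹ g) (φ⁻¹).injective.injOn
    refine Set.Finite.subset h2 ?_
    intro g hg
    simp only [Set.mem_preimage, Set.mem_ofPred_eq] at hg ⊢
    rw [map_mul] at hg
    exact hg
  · intro g
    show (D0 i (φ⁻¹ (g * φ (FreeGroup.of i))) ↔ D0 i (φ⁻¹ g)) ↔ g ≠ 1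
    rw [map_mul, MulAut.inv_apply_self]
    have h1 := D0_gen i (φ⁻¹ g)
    show (D0 i (φ⁻¹ g * FreeGroup.mk [(i, true)]) ↔ D0 i (φ⁻¹ g)) ↔ g ≠ 1
    rw [h1]
    constructor
    · intro h2 h3
      apply h2
      rw [h3, map_one]
    · intro h2 h3
      apply h2
      have := congrArg φ h3
      rwa [map_one, MulAut.apply_inv_self] at this

end Pool.Agent.Lib_4426b5
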