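import Mathlib

set_option autoImplicit false
set_option linter.unusedSectionVars false
set_option linter.unusedVariables false

namespace Pool.Agent.Lib_4426b5


variable {α : Type} [DecidableEq α]

/-- inverse letter -/
def ng (c : α × Bool) : α × Bool := (c.1, !c.2)

@[simp] theorem ng_ng (c : α × Bool) : ng (ng c) = c := by
  unfold ng; simp

theorem ng_inj {c d : α × Bool} : ng c = ng d ↔ c = d := by
  constructor
  · intro h
    have := congrArg ng h
    rwa [ng_ng, ng_ng] at this
  · intro h; rw [h]

theorem ng_ne (c : α × Bool) : ng c ≠ c := by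
  intro h
  have := congrArg Prod.snd h
  unfold ng at this
  simp at this

theorem ne_ng (c : α × Bool) : c ≠ ng c := (ng_ne c).symm

theorem red_iff (y z : α × Bool) : (y.1 = z.1 → y.2 = z.2) ↔ z ≠ ng y := by
  unfold ng
  constructor
  · intro h h2
    rw [h2] at h
    have := h rfl
    simp at this
  · intro h h1
    by_contra h2
    apply h
    ext1
    · exact h1.symm
    · show z.2 = !y.2
      revert h2
      cases y.2 <;> cases z.2 <;> simp

theorem isReduced_iff {u : List (α × Bool)} :
    FreeGroup.IsReduced u ↔ u.IsChain (fun y z => z ≠ ng y) := by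
  unfold FreeGroup.IsReduced
  constructor
  · intro h
    exact h.imp (fun y z hyz => (red_iff y z).1 hyz)
  · intro h
    exact h.imp (fun y z hyz => (red_iff y z).2 hyz)

/-- inserted letters between `y` and `z` -/
def β (a : α × Bool) (A : Finset (α × Bool)) (y z : α × Bool) : List (α × Bool) :=
  if ng y ∈ A then (if z ∈ A then [] else [a]) else (if z ∈ A then [ng a] else [])

/-- inserted letters between `y` and the head of `t` -/
def βh (a : α × Bool) (A : Finset (α × Bool)) (y : α × Bool) (t : List (α × Bool)) :
    List (α × Bool) :=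
  (t.head?).elim [] (β a A y)

/-- The insertion map. -/
def ins (a : α × Bool) (A : Finset (α × Bool)) : List (α × Bool) → List (α × Bool)
  | [] => []
  | y :: t => y :: (βh a A y t ++ ins a A t)

/-- bad transitions -/
def Bad (a : α × Bool) (A : Finset (α × Bool)) (y z : α × Bool) : Prop :=
  (ng y ∈ A ∧ z = ng a) ∨ (z ∈ A ∧ y = a)

/-- validity of a move -/
def Ok (a : α × Bool) (A : Finset (α × Bool)) : Prop := a ∉ A ∧ ng a ∉ A

section
variable (a : α × Bool) (A : Finset (α × Bool))

@[simp] theorem ins_nil : ins a A [] = [] := rfl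

@[simp] theorem βh_nil (y : α × Bool) : βh a A y [] = [] := rfl

@[simp] theorem βh_cons (y z : α × Bool) (t : List (α × Bool)) :
    βh a A y (z :: t) = β a A y z := rfl

theorem ins_cons (y : α × Bool) (t : List (α × Bool)) :
    ins a A (y :: t) = y :: (βh a A y t ++ ins a A t) := rfl

@[simp] theorem ins_singleton (y : α × Bool) : ins a A [y] = [y] := rfl

theorem ins_cons_cons (y z : α × Bool) (t : List (α × Bool)) :
    ins a A (y :: z :: t) = y :: (β a A y z ++ ins a A (z :: t)) := rfl

theorem βh_append (y : α × Bool) (s t : List (α × Bool)) (hs : s ≠ []) :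
    βh a A y (s ++ t) = βh a A y s := by
  cases s with
  | nil => exact absurd rfl hs
  | cons x s => rfl

/-- the part of `ins` before the letter `h` -/
def J : List (α × Bool) → α × Bool → List (α × Bool)
  | [], _ => []
  | y :: t, h => y :: (βh a A y (t ++ [h]) ++ J t h)

@[simp] theorem J_nil (h : α × Bool) : J a A [] h = [] := rfl

theorem J_cons (y : α × Bool) (t : List (α × Bool)) (h : α × Bool) :
    J a A (y :: t) h = y :: (βh a A y (t ++ [h]) ++ J a A t h) := rfl

theorem ins_append_cons (l : List (α × Bool)) (h : α × Bool) (r : List (α × Bool)) :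
    ins a A (l ++ h :: r) = J a A l h ++ ins a A (h :: r) := by
  induction l with
  | nil => rfl
  | cons y t ih =>
    rw [List.cons_append, ins_cons, ih]
    rw [J_cons, List.cons_append, List.append_assoc]
    congr 2
    cases t <;> rfl

theorem ins_concat (l : List (α × Bool)) (h : α × Bool) :
    ins a A (l ++ [h]) = J a A l h ++ [h] := by
  rw [ins_append_cons, ins_singleton]

theorem ins_pre (l t : List (α × Bool)) : ins a A l <+: ins a A (l ++ t) := by
  induction l with
  | nil => exact List.nil_prefix
  | cons y l ih =>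
    rw [List.cons_append, ins_cons, ins_cons]
    cases l with
    | nil =>
      simp only [List.nil_append, βh_nil, ins_nil, List.append_nil]
      exact ⟨_, rfl⟩
    | cons z l =>
      rw [βh_append a A y (z :: l) t (by simp)]
      obtain ⟨r, hr⟩ := ih
      refine ⟨r, ?_⟩
      rw [← hr]
      simp

theorem ins_suf (s l : List (α × Bool)) : ins a A l <:+ ins a A (s ++ l) := by
  induction s with
  | nil => exact List.suffix_refl _
  | cons y s ih =>
    rw [List.cons_append, ins_cons]
    obtain ⟨r, hr⟩ := ih
    refine ⟨y :: (βh a A y (s ++ l) ++ r), ?_⟩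
    rw [← hr]
    simp

theorem ins_inf {v u : List (α × Bool)} (h : v <:+: u) : ins a A v <:+: ins a A u := by
  obtain ⟨s, t, rfl⟩ := h
  rw [List.append_assoc]
  exact (ins_pre a A v t).isInfix.trans (ins_suf a A s (v ++ t)).isInfix

theorem β_length (y z : α × Bool) : (β a A y z).length ≤ 1 := by
  unfold β
  split_ifs <;> simp

theorem βh_length (y : α × Bool) (t : List (α × Bool)) : (βh a A y t).length ≤ 1 := by
  cases t with
  | nil => simp
  | cons z t => exact β_length a A y z

theorem ins_length (u : List (α × Bool)) : (ins a A u).length ≤ 2 * u.length := by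
  induction u with
  | nil => simp
  | cons y t ih =>
    rw [ins_cons]
    have := βh_length a A y t
    simp only [List.length_cons, List.length_append]
    omega

/-- insertion preserves reducedness when there are no bad transitions -/
theorem chain_ins (hOk : Ok a A) {u : List (α × Bool)}
    (h : u.IsChain (fun y z => z ≠ ng y ∧ ¬ Bad a A y z)) :
    (ins a A u).IsChain (fun y z => z ≠ ng y) := by
  induction u with
  | nil => simp
  | cons y t ih =>
    cases t with
    | nil => simp
    | cons z t =>
      rw [List.isChain_cons_cons] at h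
      obtain ⟨⟨h1, h2⟩, h3⟩ := h
      have h4 := ih h3
      rw [ins_cons_cons]
      rw [ins_cons] at h4 ⊢
      unfold Bad at h2
      push Not at h2
      unfold β
      obtain ⟨hO1, hO2⟩ := hOk
      split_ifs with hy hz hz
      · exact List.IsChain.cons_cons h1 h4
      · refine List.IsChain.cons_cons ?_ (List.IsChain.cons_cons ?_ h4)
        · rintro rfl; exact hO1 hy
        · exact h2.1 hy
      · refine List.IsChain.cons_cons ?_ (List.IsChain.cons_cons ?_ h4)
        · intro h; exact h2.2 hz (ng_inj.1 h).symm
        · rw [ng_ng]; rintro rfl; exact hO1 hz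
      · exact List.IsChain.cons_cons h1 h4

end

/-! ### The automorphism -/

section
variable (a : α × Bool) (A : Finset (α × Bool))

/-- left factor of a letter -/
def κ (c : α × Bool) : FreeGroup α := if c ∈ A then (FreeGroup.mk [a])⁻¹ else 1

/-- The endomorphism. -/
def ρ : FreeGroup α →* FreeGroup α :=
  FreeGroup.lift (fun i => κ a A (i, true) * FreeGroup.mk [(i, true)] * (κ a A (i, false))⁻¹)

theorem mk_ng (c : α × Bool) : FreeGroup.mk [ng c] = (FreeGroup.mk [c])⁻¹ := by
  rw [FreeGroup.inv_mk]
  rfl

theorem ρ_letter (c : α × Bool) :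
    ρ a A (FreeGroup.mk [c]) = κ a A c * FreeGroup.mk [c] * (κ a A (ng c))⁻¹ := by
  obtain ⟨i, b⟩ := c
  have h1 : ρ a A (FreeGroup.mk [(i, true)]) =
      κ a A (i, true) * FreeGroup.mk [(i, true)] * (κ a A (i, false))⁻¹ := by
    show FreeGroup.lift _ (FreeGroup.of i) = _
    rw [FreeGroup.lift_apply_of]
  cases b with
  | true => exact h1
  | false =>
    have h2 : (FreeGroup.mk [(i, false)] : FreeGroup α) = (FreeGroup.mk [(i, true)])⁻¹ :=
      mk_ng (i, true)
    have h3 : ng (i, false) = (i, true) := rfl
    rw [h3, h2, map_inv, h1]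
    group

theorem κ_ng (c : α × Bool) : κ (ng a) A c = (κ a A c)⁻¹ := by
  unfold κ
  split_ifs
  · rw [mk_ng]
  · simp

theorem ρ_κ (hOk : Ok a A) (c : α × Bool) : ρ a A (κ (ng a) A c) = κ (ng a) A c := by
  unfold κ
  split_ifs
  · rw [map_inv, mk_ng, map_inv, ρ_letter]
    unfold κ
    rw [if_neg hOk.1, if_neg hOk.2]
    simp
  · simp

theorem ρ_ρ (hOk : Ok a A) (x : FreeGroup α) : ρ a A (ρ (ng a) A x) = x := by
  have h : (ρ a A).comp (ρ (ng a) A) = MonoidHom.id _ := by
    apply FreeGroup.ext_hom
    intro i
    show ρ a A (ρ (ng a) A (FreeGroup.mk [(i, true)])) = FreeGroup.of i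
    rw [ρ_letter, map_mul, map_mul, map_inv, ρ_κ a A hOk, ρ_κ a A hOk, ρ_letter, κ_ng, κ_ng]
    show _ = FreeGroup.mk [(i, true)]
    group
  exact DFunLike.congr_fun h x

/-- The automorphism. -/
def ρE (hOk : Ok a A) : MulAut (FreeGroup α) where
  toFun := ρ a A
  invFun := ρ (ng a) A
  left_inv x := by
    have h := ρ_ρ (ng a) A ⟨hOk.2, by rw [ng_ng]; exact hOk.1⟩ x
    rwa [ng_ng] at h
  right_inv x := ρ_ρ a A hOk x
  map_mul' := map_mul _

theorem ρE_apply (hOk : Ok a A) (x : FreeGroup α) : ρE a A hOk x = ρ a A x := rfl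

theorem mk_β (y z : α × Bool) :
    FreeGroup.mk (β a A y z) = (κ a A (ng y))⁻¹ * κ a A z := by
  unfold β κ
  split_ifs
  · rw [inv_inv, mul_inv_cancel, FreeGroup.one_eq_mk]
  · rw [inv_inv, mul_one]
  · rw [mk_ng, inv_one, one_mul]
  · rw [inv_one, one_mul, FreeGroup.one_eq_mk]

theorem mk_cons (y : α × Bool) (t : List (α × Bool)) :
    FreeGroup.mk (y :: t) = FreeGroup.mk [y] * FreeGroup.mk t := by
  rw [FreeGroup.mul_mk]; rfl

/-- the insertion map on words computes the automorphism up to boundary terms -/
theorem mk_ins (y z : α × Bool) (t : List (α × Bool)) (hz : (y :: t).getLast? = some z) :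
    κ a A y * FreeGroup.mk (ins a A (y :: t)) * (κ a A (ng z))⁻¹ = ρ a A (FreeGroup.mk (y :: t)) := by
  induction t generalizing y with
  | nil =>
    simp only [List.getLast?_singleton, Option.some.injEq] at hz
    subst hz
    rw [ins_singleton, ρ_letter]
  | cons x t ih =>
    rw [List.getLast?_cons_cons] at hz
    have h1 := ih x hz
    rw [ins_cons_cons, mk_cons, mk_cons y (x :: t), map_mul, ← h1, ρ_letter, ← FreeGroup.mul_mk,
      mk_β]
    group

theorem mk_J (l : List (α × Bool)) (h : α × Bool) (hl : l.head? = some h) :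
    FreeGroup.mk (J a A l h) = (κ a A h)⁻¹ * ρ a A (FreeGroup.mk l) * κ a A h := by
  cases l with
  | nil => simp at hl
  | cons y t =>
    simp only [List.head?_cons, Option.some.injEq] at hl
    subst hl
    have h1 := mk_ins a A y y (t ++ [y]) (by rw [← List.cons_append, List.getLast?_concat])
    rw [← List.cons_append, ins_concat, ← FreeGroup.mul_mk, ← FreeGroup.mul_mk, map_mul,
      ρ_letter] at h1
    have h2 : κ a A y * FreeGroup.mk (J a A (y :: t) y) = ρ a A (FreeGroup.mk (y :: t)) * κ a A y := by
      have h3 := congrArg (fun g => g * κ a A (ng y) * (FreeGroup.mk [y])⁻¹) h1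
      beta_reduce at h3
      have e1 : κ a A y * (FreeGroup.mk (J a A (y :: t) y) * FreeGroup.mk [y]) * (κ a A (ng y))⁻¹
          * κ a A (ng y) * (FreeGroup.mk [y])⁻¹ = κ a A y * FreeGroup.mk (J a A (y :: t) y) := by
        group
      have e2 : ρ a A (FreeGroup.mk (y :: t)) * (κ a A y * FreeGroup.mk [y] * (κ a A (ng y))⁻¹)
          * κ a A (ng y) * (FreeGroup.mk [y])⁻¹ = ρ a A (FreeGroup.mk (y :: t)) * κ a A y := by
        group
      rw [e1, e2] at h3
      exact h3
    rw [mul_assoc, ← h2]
    group

end

end Pool.Agent.Lib_4426b5
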