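import Pool.Agent.Lib_4426b5.Whitehead

set_option autoImplicit false
set_option linter.unusedSectionVars false
set_option linter.unusedVariables false

namespace Pool.Agent.Lib_4426b5

variable {α : Type} [DecidableEq α]

theorem mk_inj_red {u v : List (α × Bool)} (hu : u.IsChain (fun y z => z ≠ ng y))
    (hv : v.IsChain (fun y z => z ≠ ng y)) (h : FreeGroup.mk u = FreeGroup.mk v) : u = v := by
  rw [← toWord_mk_red hu, h, toWord_mk_red hv]

theorem cancel_decomp (n : ℕ) : ∀ X Y : List (α × Bool), Y.length ≤ n →
    X.IsChain (fun y z => z ≠ ng y) → Y.IsChain (fun y z => z ≠ ng y) →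
    ∃ X1 c Y1, X = X1 ++ c ∧ Y = FreeGroup.invRev c ++ Y1 ∧
      (X1 ++ Y1).IsChain (fun y z => z ≠ ng y) := by
  induction n with
  | zero =>
    intro X Y hY hX _
    have : Y = [] := List.length_eq_zero_iff.1 (by omega)
    subst this
    exact ⟨X, [], [], by simp, by simp [FreeGroup.invRev], by simpa using hX⟩
  | succ n ih =>
    intro X Y hY hX hYc
    cases Y with
    | nil => exact ⟨X, [], [], by simp, by simp [FreeGroup.invRev], by simpa using hX⟩
    | cons y Y =>
      rcases List.eq_nil_or_concat X with h | ⟨X', x, h⟩
      · subst h
        exact ⟨[], [], y :: Y, by simp, by simp [FreeGroup.invRev], by simpa using hYc⟩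
      · rw [List.concat_eq_append] at h
        subst h
        by_cases hxy : y = ng x
        · subst hxy
          have hX' : X'.IsChain (fun y z => z ≠ ng y) := (List.isChain_append.1 hX).1
          have hY' : Y.IsChain (fun y z => z ≠ ng y) := hYc.tail
          obtain ⟨X1, c, Y1, h1, h2, h3⟩ := ih X' Y (by simpa using hY) hX' hY'
          refine ⟨X1, c ++ [x], Y1, by rw [h1]; simp, ?_, h3⟩
          rw [invRev_concat, h2]
          simp
        · refine ⟨X' ++ [x], [], y :: Y, by simp, by simp [FreeGroup.invRev], ?_⟩
          rw [List.isChain_append]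
          refine ⟨hX, hYc, ?_⟩
          intro a ha b hb
          rw [Option.mem_def, List.getLast?_concat] at ha
          simp only [List.head?_cons, Option.mem_def, Option.some.injEq] at ha hb
          rw [← ha, ← hb]
          exact hxy

theorem window (w : List (α × Bool)) (N : ℕ) : ∀ (m : ℕ) (x : List (α × Bool)),
    x <:+: pw w m → (N + 1) * w.length ≤ x.length → 1 ≤ w.length → pw w N <:+: x := by
  intro m
  induction m with
  | zero =>
    intro x hx hl hw
    have := hx.length_le
    rw [pw_zero, List.length_nil] at this
    nlinarith
  | succ m ih =>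
    intro x hx hl hw
    obtain ⟨a, b, hab⟩ := hx
    have hlen := congrArg List.length hab
    rw [List.length_append, List.length_append, pw_length] at hlen
    have hNm : N ≤ m := by
      by_contra hcon
      have : (m + 1) * w.length < (N + 1) * w.length :=
        Nat.mul_lt_mul_of_pos_right (by omega) (by omega)
      omega
    obtain ⟨d, rfl⟩ := Nat.exists_eq_add_of_le hNm
    by_cases haw : w.length ≤ a.length
    · have h1 : w <+: a := by
        apply List.prefix_of_prefix_length_le (l₃ := pw w (N + d + 1)) _ _ haw
        · rw [pw_succ]; exact List.prefix_append _ _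
        · rw [← hab, List.append_assoc]; exact List.prefix_append _ _
      obtain ⟨a', rfl⟩ := h1
      apply ih x _ hl hw
      refine ⟨a', b, ?_⟩
      rw [pw_succ] at hab
      simp only [List.append_assoc] at hab ⊢
      exact List.append_cancel_left hab
    · have h1 : a <+: w := by
        apply List.prefix_of_prefix_length_le (l₃ := pw w (N + d + 1)) _ _ (by omega)
        · rw [← hab, List.append_assoc]; exact List.prefix_append _ _
        · rw [pw_succ]; exact List.prefix_append _ _
      obtain ⟨a'', ha''⟩ := h1
      have h2 : x ++ b = a'' ++ pw w N ++ pw w d := by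
        rw [pw_succ, pw_add] at hab
        have e : ∀ v, w ++ v = a ++ (a'' ++ v) := by
          intro v; rw [← ha'', List.append_assoc]
        have h3 : a ++ (x ++ b) = a ++ (a'' ++ pw w N ++ pw w d) := by
          rw [← List.append_assoc, hab, e, List.append_assoc]
        exact List.append_cancel_left h3
      have h3 : a'' ++ pw w N <+: x := by
        apply List.prefix_of_prefix_length_le (l₃ := x ++ b) _ _ _
        · rw [h2]; exact List.prefix_append _ _
        · exact List.prefix_append _ _
        · have h4 := congrArg List.length ha''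
          rw [List.length_append] at h4
          rw [List.length_append, pw_length]
          nlinarith
      exact (List.suffix_append a'' (pw w N)).isInfix.trans h3.isInfix

theorem rot_of_fact {w : List (α × Bool)} (m : ℕ) : ∀ (t : List (α × Bool)),
    t <:+: pw w m → t.length = w.length → 1 ≤ w.length → ∃ l r, w = l ++ r ∧ t = r ++ l := by
  induction m with
  | zero =>
    intro t ht hl hw
    have := ht.length_le
    rw [pw_zero, List.length_nil] at this
    omega
  | succ m ih =>
    intro t ht hl hw
    obtain ⟨a, b, hab⟩ := ht
    by_cases haw : w.length ≤ a.length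
    · have h1 : w <+: a := by
        apply List.prefix_of_prefix_length_le (l₃ := pw w (m + 1)) _ _ haw
        · rw [pw_succ]; exact List.prefix_append _ _
        · rw [← hab, List.append_assoc]; exact List.prefix_append _ _
      obtain ⟨a', rfl⟩ := h1
      apply ih t _ hl hw
      refine ⟨a', b, ?_⟩
      rw [pw_succ] at hab
      simp only [List.append_assoc] at hab ⊢
      exact List.append_cancel_left hab
    · have h1 : a <+: w := by
        apply List.prefix_of_prefix_length_le (l₃ := pw w (m + 1)) _ _ (by omega)
        · rw [← hab, List.append_assoc]; exact List.prefix_append _ _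
        · rw [pw_succ]; exact List.prefix_append _ _
      obtain ⟨r, hr⟩ := h1
      refine ⟨a, r, hr.symm, ?_⟩
      have h2 : t ++ b = r ++ pw w m := by
        rw [pw_succ] at hab
        have h3 : a ++ (t ++ b) = a ++ (r ++ pw w m) := by
          rw [← List.append_assoc, hab, ← List.append_assoc, hr]
        exact List.append_cancel_left h3
      -- compare with the periodic continuation
      cases m with
      | zero =>
        rw [pw_zero, List.append_nil] at h2
        have h4 := congrArg List.length h2
        have h5 := congrArg List.length hr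
        rw [List.length_append] at h4 h5
        have ha0 : a = [] := List.length_eq_zero_iff.1 (by omega)
        have hb0 : b = [] := List.length_eq_zero_iff.1 (by omega)
        rw [ha0, List.append_nil]
        rw [hb0, List.append_nil] at h2
        exact h2
      | succ m =>
        rw [pw_succ] at h2
        have e : ∀ v, w ++ v = a ++ (r ++ v) := by
          intro v; rw [← hr, List.append_assoc]
        have h6 : r ++ (w ++ pw w m) = (r ++ a) ++ (r ++ pw w m) := by
          rw [e, List.append_assoc]
        rw [h6] at h2
        have h5 := congrArg List.length hr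
        rw [List.length_append] at h5
        exact (List.append_inj h2 (by rw [List.length_append]; omega)).1

theorem self_inv_nil {a : List (α × Bool)} (ha : a.IsChain (fun y z => z ≠ ng y))
    (h : FreeGroup.invRev a = a) : a = [] := by
  have h1 : (FreeGroup.mk a)⁻¹ = FreeGroup.mk a := by
    rw [FreeGroup.inv_mk, h]
  have h2 : FreeGroup.mk a ^ 2 = 1 ^ 2 := by
    rw [one_pow, pow_two]
    nth_rewrite 1 [← h1]
    rw [inv_mul_cancel]
  have h3 : FreeGroup.mk a = 1 := (pow_left_inj (M := FreeGroup α) (by norm_num)).1 h2
  have h4 := toWord_mk_red ha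
  rw [h3, FreeGroup.toWord_one] at h4
  exact h4.symm

theorem no_inverse_factor {w : List (α × Bool)} (hw : FreeGroup.IsCyclicallyReduced w)
    (hne : 1 ≤ w.length) {s : List (α × Bool)} (hs : w.length ≤ s.length) (h1 : Fact w s)
    (h2 : Fact w (FreeGroup.invRev s)) : False := by
  -- cut down to length `|w|`
  have ht1 : Fact w (s.take w.length) := h1.inf (List.take_prefix _ _).isInfix
  have ht2 : Fact w (FreeGroup.invRev (s.take w.length)) := by
    apply h2.inf
    have : FreeGroup.invRev s = FreeGroup.invRev (s.drop w.length) ++
        FreeGroup.invRev (s.take w.length) := by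
      conv_lhs => rw [← List.take_append_drop w.length s]
      unfold FreeGroup.invRev
      rw [List.map_append, List.reverse_append]
    rw [this]
    exact (List.suffix_append _ _).isInfix
  have hlen : (s.take w.length).length = w.length := by
    rw [List.length_take]; omega
  generalize s.take w.length = t at ht1 ht2 hlen
  obtain ⟨m1, hm1⟩ := ht1
  obtain ⟨m2, hm2⟩ := ht2
  obtain ⟨l, r, hw1, ht⟩ := rot_of_fact m1 t hm1 hlen hne
  have hm2' : FreeGroup.invRev t <:+: pw t (m2 + 1) := by
    rw [ht, pw_rot]
    rw [ht] at hm2
    rw [hw1] at hm2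
    exact hm2.trans ⟨r, l, rfl⟩
  obtain ⟨a, b, hab, hba⟩ := rot_of_fact (m2 + 1) (FreeGroup.invRev t) hm2'
    (by rw [FreeGroup.invRev_length]) (by omega)
  have hcyc : FreeGroup.IsCyclicallyReduced t := by
    rw [ht]
    rw [hw1] at hw
    exact cyc_rot hw
  have hchain := isReduced_iff.1 hcyc.isReduced
  have e : FreeGroup.invRev t = FreeGroup.invRev b ++ FreeGroup.invRev a := by
    rw [hab]
    unfold FreeGroup.invRev
    rw [List.map_append, List.reverse_append]
  rw [e] at hba
  obtain ⟨e1, e2⟩ := List.append_inj hba (by rw [FreeGroup.invRev_length])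
  rw [hab, List.isChain_append] at hchain
  have ha := self_inv_nil hchain.1 e2
  have hb := self_inv_nil hchain.2.1 e1
  rw [ha, hb] at hab
  rw [hab] at hlen
  simp at hlen
  omega

theorem trans_pow {i j : α} (hij : i ≠ j) (M : ℕ) :
    ∃ ψ : MulAut (FreeGroup α), ψ (FreeGroup.of j) = FreeGroup.of i ^ M * FreeGroup.of j := by
  have hOk : Ok (i, false) ({(j, true)} : Finset (α × Bool)) := by
    constructor
    · simp
    · unfold ng; simp [hij]
  have h1 : ρE (i, false) {(j, true)} hOk (FreeGroup.of j)
      = FreeGroup.of i * FreeGroup.of j := by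
    rw [ρE_apply]
    show ρ (i, false) {(j, true)} (FreeGroup.mk [(j, true)]) = _
    rw [ρ_letter]
    unfold κ ng
    simp only [Finset.mem_singleton, if_true, Prod.mk.injEq, true_and, Bool.not_true,
      Bool.false_eq_true, if_false, inv_one, mul_one]
    have h3 : (FreeGroup.mk [(i, false)] : FreeGroup α) = (FreeGroup.mk [(i, true)])⁻¹ :=
      mk_ng (i, true)
    rw [h3, inv_inv]
    rfl
  have h2 : ρE (i, false) {(j, true)} hOk (FreeGroup.of i) = FreeGroup.of i := by
    rw [ρE_apply]
    show ρ (i, false) {(j, true)} (FreeGroup.mk [(i, true)]) = _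
    rw [ρ_letter]
    unfold κ ng
    simp only [Finset.mem_singleton, Prod.mk.injEq, hij, false_and, if_false, inv_one, mul_one,
      one_mul]
    rfl
  refine ⟨(ρE (i, false) {(j, true)} hOk) ^ M, ?_⟩
  induction M with
  | zero => simp
  | succ M ih =>
    rw [pow_succ', MulAut.mul_apply, ih, map_mul, map_pow, h1, h2, pow_succ, mul_assoc]

/-- Every power of a cyclically reduced primitive word occurs in some cyclically reduced
primitive word. -/
theorem long_fact [Nontrivial α] {w : List (α × Bool)} (hw : Prim w) (N : ℕ) :
    ∃ w2, Prim w2 ∧ pw w N <:+: w2 := by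
  obtain ⟨hne, hcyc, φ, i, hφ⟩ := hw
  have hlen : 1 ≤ w.length := List.length_pos_iff.2 hne
  obtain ⟨j, hj⟩ := exists_ne i
  set Y := (φ (FreeGroup.of j)).toWord with hY
  set K := Y.length with hK
  set M := 2 * K + N + 4 with hM
  obtain ⟨ψ, hψ⟩ := trans_pow hj.symm M
  obtain ⟨X1, c, Y1, h1, h2, h3⟩ := cancel_decomp _ (pw w M) Y le_rfl (pw_chain hcyc M)
    (toWord_chain _)
  have hmkL : FreeGroup.mk (X1 ++ Y1) = (φ * ψ) (FreeGroup.of j) := by
    rw [MulAut.mul_apply, hψ, map_mul, map_pow, ← hφ, ← mk_pw]
    have e1 : φ (FreeGroup.of j) = FreeGroup.mk Y := by rw [hY, FreeGroup.mk_toWord]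
    rw [e1, h1, h2, FreeGroup.mul_mk, ← FreeGroup.mul_mk, ← FreeGroup.mul_mk,
      ← FreeGroup.mul_mk, ← FreeGroup.mul_mk, ← FreeGroup.inv_mk]
    group
  set L := X1 ++ Y1 with hL
  have hLred : FreeGroup.IsReduced L := isReduced_iff.2 h3
  set g := FreeGroup.reduceCyclically.conjugator L with hg
  set q := FreeGroup.reduceCyclically L with hq
  have hqc : FreeGroup.IsCyclicallyReduced q :=
    FreeGroup.reduceCyclically.isCyclicallyReduced hLred
  have heq : g ++ q ++ FreeGroup.invRev g = L :=
    FreeGroup.reduceCyclically.conj_conjugator_reduceCyclically L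
  have hX1 : X1.length + c.length = M * w.length := by
    have := congrArg List.length h1
    rw [pw_length, List.length_append] at this
    omega
  have hY1 : c.length + Y1.length = K := by
    have := congrArg List.length h2
    rw [List.length_append, FreeGroup.invRev_length] at this
    omega
  have hLlen : g.length + q.length + g.length = X1.length + Y1.length := by
    have := congrArg List.length heq
    rw [List.length_append, List.length_append, FreeGroup.invRev_length, hL,
      List.length_append] at this
    exact this
  have hMw : (2 * K + N + 4) * w.length = 2 * K * w.length + (N + 4) * w.length := by ring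
  have hKw : 2 * K ≤ 2 * K * w.length := by nlinarith
  have hNw : (N + 4) * w.length = (N + 1) * w.length + 3 * w.length := by ring
  rw [← hM] at hMw
  have hgX : g.length ≤ X1.length := by omega
  have hgpre : g <+: X1 := by
    apply List.prefix_of_prefix_length_le (l₃ := L) _ _ hgX
    · rw [← heq, List.append_assoc]; exact List.prefix_append _ _
    · exact List.prefix_append _ _
  have hX1f : ∀ v, v <:+: X1 → Fact w v := by
    intro v hv
    refine ⟨M, hv.trans ?_⟩
    rw [h1]
    exact (List.prefix_append _ _).isInfix
  have hkey : g.length ≤ Y1.length + w.length := by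
    by_contra hcon
    have hsuf : Y1 <:+ FreeGroup.invRev g := by
      apply List.suffix_of_suffix_length_le (l₃ := L)
      · exact List.suffix_append _ _
      · rw [← heq]; exact List.suffix_append _ _
      · rw [FreeGroup.invRev_length]; omega
    obtain ⟨s, hs⟩ := hsuf
    have hs_len : s.length + Y1.length = g.length := by
      have := congrArg List.length hs
      rwa [List.length_append, FreeGroup.invRev_length] at this
    have hsX : s <:+ X1 := by
      have e1 : g ++ q ++ s = X1 := by
        rw [← hs, ← List.append_assoc] at heq
        exact List.append_cancel_right heq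
      rw [← e1]
      exact List.suffix_append _ _
    have hginv : g = FreeGroup.invRev Y1 ++ FreeGroup.invRev s := by
      have e1 : g = FreeGroup.invRev (FreeGroup.invRev g) := by rw [FreeGroup.invRev_invRev]
      rw [e1, ← hs]
      unfold FreeGroup.invRev
      rw [List.map_append, List.reverse_append]
    apply no_inverse_factor hcyc hlen (s := s) (by omega) (hX1f s hsX.isInfix)
    apply hX1f
    refine List.IsInfix.trans ?_ hgpre.isInfix
    rw [hginv]
    exact (List.suffix_append _ _).isInfix
  obtain ⟨X2, hX2⟩ := hgpre
  have hX2len : g.length + X2.length = X1.length := by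
    have := congrArg List.length hX2
    rwa [List.length_append] at this
  have hqX : X2 ++ Y1 = q ++ FreeGroup.invRev g := by
    have e1 : g ++ (X2 ++ Y1) = g ++ (q ++ FreeGroup.invRev g) := by
      rw [← List.append_assoc, hX2, ← List.append_assoc, heq]
    exact List.append_cancel_left e1
  have hfin : pw w N <:+: q := by
    rcases le_total q.length X2.length with h | h
    · have hqp : q <+: X2 := by
        apply List.prefix_of_prefix_length_le (l₃ := X2 ++ Y1) _ _ h
        · rw [hqX]; exact List.prefix_append _ _
        · exact List.prefix_append _ _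
      have hqX1 : q <:+: pw w M := by
        rw [h1]
        refine hqp.isInfix.trans ?_
        rw [← hX2]
        exact (List.suffix_append g X2).isInfix.trans (List.prefix_append _ _).isInfix
      exact window w N M q hqX1 (by omega) hlen
    · have hqp : X2 <+: q := by
        apply List.prefix_of_prefix_length_le (l₃ := X2 ++ Y1) _ _ h
        · exact List.prefix_append _ _
        · rw [hqX]; exact List.prefix_append _ _
      have hX2M : X2 <:+: pw w M := by
        rw [h1, ← hX2]
        exact (List.suffix_append g X2).isInfix.trans (List.prefix_append _ _).isInfix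
      exact (window w N M X2 hX2M (by omega) hlen).trans hqp.isInfix
  refine ⟨q, ⟨?_, hqc, MulAut.conj (FreeGroup.mk g)⁻¹ * (φ * ψ), j, ?_⟩, hfin⟩
  · intro hq0
    have e1 : FreeGroup.mk L = 1 := by
      rw [← heq, hq0, List.append_nil, ← FreeGroup.mul_mk, ← FreeGroup.inv_mk, mul_inv_cancel]
    rw [hmkL] at e1
    have e2 : FreeGroup.of j = 1 := (φ * ψ).injective (by rw [e1, map_one])
    exact FreeGroup.of_ne_one j e2
  · show _ = (FreeGroup.mk g)⁻¹ * (φ * ψ) (FreeGroup.of j) * ((FreeGroup.mk g)⁻¹)⁻¹
    rw [← hmkL, ← heq, ← FreeGroup.mul_mk, ← FreeGroup.mul_mk, ← FreeGroup.inv_mk]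
    group

end Pool.Agent.Lib_4426b5
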