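import Pool.Agent.Lib_4426b5.Long

set_option autoImplicit false
set_option linter.unusedSectionVars false
set_option linter.unusedVariables false

namespace Pool.Agent.Lib_4426b5

variable {α : Type} [DecidableEq α]

/-- the transitions of a word -/
def prs (l : List (α × Bool)) : Finset ((α × Bool) × (α × Bool)) := (l.zip l.tail).toFinset

theorem mem_prs {l : List (α × Bool)} {y z : α × Bool} : (y, z) ∈ prs l ↔ [y, z] <:+: l := by
  unfold prs
  rw [List.mem_toFinset]
  induction l with
  | nil => simp
  | cons x l ih =>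
    cases l with
    | nil =>
      simp only [List.tail_cons, List.zip_nil_right, List.not_mem_nil, false_iff]
      intro h
      have := h.length_le
      simp at this
    | cons x' l =>
      rw [List.tail_cons, List.zip_cons_cons, List.mem_cons, List.infix_cons_iff]
      rw [List.tail_cons] at ih
      rw [ih]
      constructor
      · rintro (h | h)
        · left
          simp only [Prod.mk.injEq] at h
          rw [h.1, h.2]
          exact ⟨l, rfl⟩
        · right; exact h
      · rintro (h | h)
        · left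
          rw [List.cons_prefix_cons, List.cons_prefix_cons] at h
          rw [h.1, h.2.1]
        · right; exact h

/-- transformation of transition sets -/
def δ (a : α × Bool) (A : Finset (α × Bool)) (T : Finset ((α × Bool) × (α × Bool))) :
    Finset ((α × Bool) × (α × Bool)) :=
  T.biUnion (fun p => prs (ins a A [p.1, p.2]))

theorem mem_δ {a : α × Bool} {A : Finset (α × Bool)} {T : Finset ((α × Bool) × (α × Bool))}
    {y z : α × Bool} :
    (y, z) ∈ δ a A T ↔ ∃ y' z', (y', z') ∈ T ∧ [y, z] <:+: ins a A [y', z'] := by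
  unfold δ
  rw [Finset.mem_biUnion]
  constructor
  · rintro ⟨⟨y', z'⟩, h1, h2⟩
    exact ⟨y', z', h1, mem_prs.1 h2⟩
  · rintro ⟨y', z', h1, h2⟩
    exact ⟨(y', z'), h1, mem_prs.2 h2⟩

/-- reachable states -/
inductive Reach (B : ℕ) : List (α × Bool) → Finset ((α × Bool) × (α × Bool)) → Prop
  | base (c : α × Bool) : Reach B (List.replicate B c) {(c, c)}
  | tl (v : List (α × Bool)) (T : Finset ((α × Bool) × (α × Bool))) :
      Reach B v T → Reach B v.tail T
  | dl (v : List (α × Bool)) (T : Finset ((α × Bool) × (α × Bool))) :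
      Reach B v T → Reach B v.dropLast T
  | mv (v : List (α × Bool)) (T : Finset ((α × Bool) × (α × Bool))) (a : α × Bool)
      (A : Finset (α × Bool)) : Reach B v T → Ok a A → (∀ p ∈ T, ¬ Bad a A p.1 p.2) →
      (ins a A v).length ≤ B → Reach B (ins a A v) (δ a A T)

theorem pw_singleton (c : α × Bool) (n : ℕ) : pw [c] n = List.replicate n c := by
  induction n with
  | zero => rfl
  | succ n ih => rw [pw_succ, ih]; rfl

theorem fact_singleton_pair {c y z : α × Bool} : Fact [c] [y, z] ↔ y = c ∧ z = c := by
  constructor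
  · rintro ⟨n, hn⟩
    rw [pw_singleton] at hn
    have h1 := List.eq_of_mem_replicate (hn.subset (List.mem_cons_self (a := y) (l := [z])))
    have h2 := List.eq_of_mem_replicate (hn.subset (by simp : z ∈ [y, z]))
    exact ⟨h1, h2⟩
  · rintro ⟨rfl, rfl⟩
    refine ⟨2, ?_⟩
    rw [pw_singleton]
    exact List.infix_refl _

theorem pair_aux (c y z : α × Bool) : Fact [c] [y, z] ↔
    (y, z) ∈ ({(c, c)} : Finset ((α × Bool) × (α × Bool))) := by
  rw [fact_singleton_pair, Finset.mem_singleton]
  constructor
  · rintro ⟨rfl, rfl⟩; rfl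
  · intro h; exact ⟨congrArg Prod.fst h, congrArg Prod.snd h⟩

theorem prim_singleton (c : α × Bool) : Prim [c] := by
  refine ⟨by simp, by simp, ?_⟩
  obtain ⟨i, b⟩ := c
  cases b with
  | true => exact ⟨1, i, rfl⟩
  | false =>
    -- inversion of all generators
    let f : FreeGroup α →* FreeGroup α := FreeGroup.lift (fun k => (FreeGroup.of k)⁻¹)
    have hf : ∀ x, f (f x) = x := by
      intro x
      have : f.comp f = MonoidHom.id _ := by
        apply FreeGroup.ext_hom
        intro k
        show f (f (FreeGroup.of k)) = FreeGroup.of k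
        have h1 : f (FreeGroup.of k) = (FreeGroup.of k)⁻¹ := by
          show FreeGroup.lift _ (FreeGroup.of k) = _
          rw [FreeGroup.lift_apply_of]
        rw [h1, map_inv, h1, inv_inv]
      exact DFunLike.congr_fun this x
    let ι : MulAut (FreeGroup α) :=
      { toFun := f, invFun := f, left_inv := hf, right_inv := hf, map_mul' := map_mul f }
    refine ⟨ι, i, ?_⟩
    show _ = f (FreeGroup.of i)
    have h1 : f (FreeGroup.of i) = (FreeGroup.of i)⁻¹ := by
      show FreeGroup.lift _ (FreeGroup.of i) = _
      rw [FreeGroup.lift_apply_of]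
    rw [h1]
    exact mk_ng (i, true)

theorem reach_sound {B : ℕ} {v : List (α × Bool)} {T : Finset ((α × Bool) × (α × Bool))}
    (h : Reach B v T) : ∃ w, Prim w ∧ Fact w v ∧ ∀ y z, Fact w [y, z] ↔ (y, z) ∈ T := by
  induction h with
  | base c =>
    refine ⟨[c], prim_singleton c, ⟨B, ?_⟩, fun y z => pair_aux c y z⟩
    rw [pw_singleton]
  | tl v T _ ih =>
    obtain ⟨w, h1, h2, h3⟩ := ih
    exact ⟨w, h1, h2.inf (List.tail_suffix v).isInfix, h3⟩
  | dl v T _ ih =>
    obtain ⟨w, h1, h2, h3⟩ := ih
    exact ⟨w, h1, h2.inf (List.dropLast_prefix v).isInfix, h3⟩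
  | mv v T a A _ hOk hbad _ ih =>
    obtain ⟨w, h1, h2, h3⟩ := ih
    cases w with
    | nil => exact absurd rfl h1.1
    | cons h s =>
      refine ⟨J a A (h :: s) h, ?_, fact_ins a A h2, ?_⟩
      · apply prim_J a A hOk h1
        intro y z hf
        exact hbad (y, z) ((h3 y z).1 hf)
      · intro y z
        rw [fact_pair_iff, mem_δ]
        constructor
        · rintro ⟨y', z', h4, h5⟩
          exact ⟨y', z', (h3 _ _).1 h4, h5⟩
        · rintro ⟨y', z', h4, h5⟩
          exact ⟨y', z', (h3 _ _).2 h4, h5⟩

theorem reach_drop {B : ℕ} {T : Finset ((α × Bool) × (α × Bool))} (s : List (α × Bool)) :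
    ∀ v : List (α × Bool), Reach B (s ++ v) T → Reach B v T := by
  induction s with
  | nil => intro v h; exact h
  | cons x s ih =>
    intro v h
    exact ih v (Reach.tl _ _ h)

theorem reach_dropr {B : ℕ} {T : Finset ((α × Bool) × (α × Bool))} (t : List (α × Bool)) :
    ∀ v : List (α × Bool), Reach B (v ++ t) T → Reach B v T := by
  induction t using List.reverseRecOn with
  | nil => intro v h; simpa using h
  | append_singleton t x ih =>
    intro v h
    apply ih v
    have := Reach.dl _ _ h
    rw [← List.append_assoc, List.dropLast_concat] at this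
    exact this

theorem reach_infix {B : ℕ} {T : Finset ((α × Bool) × (α × Bool))} {u v : List (α × Bool)}
    (h : Reach B u T) (hv : v <:+: u) : Reach B v T := by
  obtain ⟨s, t, rfl⟩ := hv
  exact reach_drop s v (reach_dropr t _ h)

theorem reach_complete [Fintype α] {n : ℕ} (hn : 2 ≤ n) (m : ℕ) :
    ∀ (w : List (α × Bool)), w.length ≤ m → Prim w → ∀ v, Fact w v → v.length ≤ n →
      ∀ T : Finset ((α × Bool) × (α × Bool)), (∀ y z, (y, z) ∈ T ↔ Fact w [y, z]) →
      Reach (2 * n) v T := by
  classical
  induction m with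
  | zero =>
    intro w hwl hw
    exact absurd (List.length_eq_zero_iff.1 (by omega)) hw.1
  | succ m ih =>
    intro w hwl hw v hv hvn T hT
    by_cases h2 : 2 ≤ w.length
    · obtain ⟨a, A, hOk, hcross, hjoin⟩ := whitehead hw h2
      obtain ⟨h, s, hp, hlt, hbad, hfact⟩ := reduce_step a A hOk hw hcross hjoin
      obtain ⟨v', h3, h4, h5⟩ := fact_track a A ((hfact v).2 hv)
      let T' : Finset ((α × Bool) × (α × Bool)) :=
        Finset.univ.filter (fun p => Fact (h :: s) [p.1, p.2])
      have hT' : ∀ y z, (y, z) ∈ T' ↔ Fact (h :: s) [y, z] := by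
        intro y z
        simp [T']
      have hv'n : v'.length ≤ n := le_trans h5 (max_le hvn hn)
      have hr := ih (h :: s) (by omega) hp v' h3 hv'n T' hT'
      have hδ : δ a A T' = T := by
        ext ⟨y, z⟩
        rw [mem_δ, hT, ← hfact, fact_pair_iff]
        constructor
        · rintro ⟨y', z', h6, h7⟩
          exact ⟨y', z', (hT' _ _).1 h6, h7⟩
        · rintro ⟨y', z', h6, h7⟩
          exact ⟨y', z', (hT' _ _).2 h6, h7⟩
      have hmv := Reach.mv v' T' a A hr hOk
        (fun p hp => hbad p.1 p.2 ((hT' p.1 p.2).1 hp))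
        (le_trans (ins_length a A v') (by omega))
      rw [hδ] at hmv
      exact reach_infix hmv h4
    · have hw1 : w.length = 1 := by
        have := List.length_pos_iff.2 hw.1
        omega
      obtain ⟨c, rfl⟩ := List.length_eq_one_iff.1 hw1
      have hTc : T = {(c, c)} := by
        ext ⟨y, z⟩
        rw [hT, pair_aux]
      subst hTc
      apply reach_infix (Reach.base (B := 2 * n) c)
      obtain ⟨k, hk⟩ := hv
      rw [pw_singleton] at hk
      have hv2 : v = List.replicate v.length c := by
        rw [List.eq_replicate_iff]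
        exact ⟨rfl, fun b hb => List.eq_of_mem_replicate (hk.subset hb)⟩
      rw [hv2]
      refine ⟨[], List.replicate (2 * n - v.length) c, ?_⟩
      rw [List.nil_append, ← List.replicate_add]
      congr 1
      omega

/-- the predicate of the problem: `v` occurs in a cyclically reduced primitive element -/
def Occ (v : List (α × Bool)) : Prop :=
  ∃ (φ : MulAut (FreeGroup α)) (i : α),
            List.IsInfix v (φ (FreeGroup.of i)).toWord ∧
            ∀ a ∈ (φ (FreeGroup.of i)).toWord.head?,
              ∀ b ∈ (φ (FreeGroup.of i)).toWord.getLast?,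
                ¬ (a.1 = b.1 ∧ a.2 ≠ b.2)

theorem occ_iff [Fintype α] [Nontrivial α] (v : List (α × Bool)) :
    Occ v ↔ ∃ T, Reach (2 * max v.length 2) v T := by
  classical
  constructor
  · rintro ⟨φ, i, hv, hc⟩
    have hne : (φ (FreeGroup.of i)).toWord ≠ [] := by
      intro h
      have h1 := FreeGroup.toWord_eq_nil_iff.1 h
      have h2 : FreeGroup.of i = 1 := φ.injective (by rw [h1, map_one])
      exact FreeGroup.of_ne_one i h2
    have hp : Prim (φ (FreeGroup.of i)).toWord := by
      refine ⟨hne, ?_, φ, i, FreeGroup.mk_toWord⟩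
      rw [FreeGroup.isCyclicallyReduced_iff]
      refine ⟨FreeGroup.isReduced_toWord, ?_⟩
      intro a ha b hb hab
      by_contra hne2
      exact hc b hb a ha ⟨hab.symm, fun h => hne2 h.symm⟩
    refine ⟨Finset.univ.filter (fun p => Fact (φ (FreeGroup.of i)).toWord [p.1, p.2]), ?_⟩
    refine reach_complete (le_max_right _ _) _ (φ (FreeGroup.of i)).toWord le_rfl hp v ?_
      (le_max_left _ _) _ ?_
    · refine ⟨1, ?_⟩
      rw [pw_one]
      exact hv
    · intro y z
      simp
  · rintro ⟨T, hT⟩
    obtain ⟨w, hw, ⟨N, hN⟩, _⟩ := reach_sound hT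
    obtain ⟨w2, hw2, hinf⟩ := long_fact hw N
    obtain ⟨_, hcyc, φ, i, hφ⟩ := hw2
    have htw : (φ (FreeGroup.of i)).toWord = w2 := by
      rw [← hφ]
      exact toWord_mk_red (isReduced_iff.1 hcyc.isReduced)
    refine ⟨φ, i, ?_, ?_⟩
    · rw [htw]
      exact hN.trans hinf
    · rw [htw]
      intro a ha b hb hab
      exact hab.2 ((hcyc.2 b hb a ha hab.1.symm).symm)

end Pool.Agent.Lib_4426b5
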