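import Pool.Agent.Lib_4426b5.Weak

set_option autoImplicit false
set_option linter.unusedSectionVars false
set_option linter.unusedVariables false

namespace Pool.Agent.Lib_4426b5

variable {α : Type} [DecidableEq α]

theorem short_mem {w : List (α × Bool)} (hw : FreeGroup.IsCyclicallyReduced w)
    {l r : List (α × Bool)} {z : α × Bool} (hlr : w = l ++ z :: r)
    (h : (FreeGroup.mk l)⁻¹ ∈ Subgroup.zpowers (FreeGroup.mk w)) : l = [] := by
  obtain ⟨k, hk⟩ := h
  have hk' : FreeGroup.mk w ^ k = (FreeGroup.mk l)⁻¹ := hk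
  have hc : l.IsChain (fun y z => z ≠ ng y) := by
    have h1 := isReduced_iff.1 hw.isReduced
    rw [hlr] at h1
    exact (List.isChain_append.1 h1).1
  have h1 : ((FreeGroup.mk l)⁻¹).norm = l.length := by
    rw [FreeGroup.norm_inv_eq]
    unfold FreeGroup.norm
    rw [toWord_mk_red hc]
  have h2 : ∀ n : ℕ, (FreeGroup.mk w ^ n).norm = n * w.length := by
    intro n
    unfold FreeGroup.norm
    rw [← mk_pw, toWord_mk_red (pw_chain hw n), pw_length]
  have h3 : l.length < w.length := by
    rw [hlr]; simp
  obtain ⟨n, rfl | rfl⟩ := k.eq_nat_or_neg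
  · rw [zpow_natCast] at hk'
    rw [← hk', h2] at h1
    cases n with
    | zero => apply List.length_eq_zero_iff.1; omega
    | succ n => exfalso; rw [← h1, add_mul] at h3; omega
  · rw [zpow_neg, zpow_natCast] at hk'
    rw [← hk', FreeGroup.norm_inv_eq, h2] at h1
    cases n with
    | zero => apply List.length_eq_zero_iff.1; omega
    | succ n => exfalso; rw [← h1, add_mul] at h3; omega

theorem choose_side {w : List (α × Bool)} (a : α × Bool) (C1 C2 : Finset (α × Bool))
    (h1 : a ∉ C1) (h2 : a ∉ C2) (hn1 : C1.Nonempty) (hn2 : C2.Nonempty)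
    (hcov : ∀ c, c = a ∨ c ∈ C1 ∨ c ∈ C2) (hdis : ∀ c ∈ C1, c ∉ C2)
    (hno : ∀ y z, Fact w [y, z] → ¬ (ng y ∈ C1 ∧ z ∈ C2) ∧ ¬ (ng y ∈ C2 ∧ z ∈ C1)) :
    ∃ (a : α × Bool) (A : Finset (α × Bool)), Ok a A ∧ A.Nonempty ∧
      ∀ y z, Fact w [y, z] → ¬ Cross a A y z := by
  rcases hcov (ng a) with h | h | h
  · exact absurd h (ng_ne a)
  · refine ⟨a, C2, ⟨h2, hdis _ h⟩, hn2, ?_⟩
    rintro y z hf (⟨hy, hz, hza⟩ | ⟨hz, hy, hya⟩)
    · rcases hcov z with h' | h' | h'
      · exact hza h'
      · exact (hno y z hf).2 ⟨hy, h'⟩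
      · exact hz h'
    · rcases hcov (ng y) with h' | h' | h'
      · exact hya h'
      · exact (hno y z hf).1 ⟨h', hz⟩
      · exact hy h'
  · refine ⟨a, C1, ⟨h1, fun h' => hdis _ h' h⟩, hn1, ?_⟩
    rintro y z hf (⟨hy, hz, hza⟩ | ⟨hz, hy, hya⟩)
    · rcases hcov z with h' | h' | h'
      · exact hza h'
      · exact hz h'
      · exact (hno y z hf).1 ⟨hy, h'⟩
    · rcases hcov (ng y) with h' | h' | h'
      · exact hya h'
      · exact hy h'
      · exact (hno y z hf).2 ⟨h', hz⟩

theorem weak_cut [Fintype α] {h : α × Bool} {s : List (α × Bool)}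
    (hw : FreeGroup.IsCyclicallyReduced (h :: s)) (hs : s ≠ []) {D : FreeGroup α → Prop}
    (hW : ∀ g, (D (g * FreeGroup.mk (h :: s)) ↔ D g) ↔ g ≠ 1)
    (hD : ∀ u, {g | ¬ (D (g * u) ↔ D g)}.Finite) :
    ∃ (a : α × Bool) (A : Finset (α × Bool)), Ok a A ∧ A.Nonempty ∧
      ∀ y z, Fact (h :: s) [y, z] → ¬ Cross a A y z := by
  classical
  obtain ⟨D', M, p, c, c', hfin, hC, hp, hO, hO', hD1, hD2⟩ := exists_branch hW hD
  by_cases hp1 : p = 1
  · have hOut : ∀ c, Out p c := by rw [hp1]; exact out_one
    -- the distinguished transition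
    obtain ⟨y0, hy0⟩ : ∃ y0, (h :: s).getLast? = some y0 := by
      rw [List.getLast?_eq_some_getLast (by simp)]
      exact ⟨_, rfl⟩
    have hdist : ¬ (D' (p * FreeGroup.mk [h]) ↔ D' (p * FreeGroup.mk [ng y0])) := by
      refine (turn hw hW hD hfin hC hp (l := []) (r := s) rfl (by rw [List.append_nil]; exact hy0)
        (hOut _) (hOut _)).2 ?_
      rw [hp1, ← FreeGroup.one_eq_mk]; simp
    have huniq : ∀ l r y z, h :: s = l ++ z :: r → (z :: (r ++ l)).getLast? = some y →
        ¬ (D' (p * FreeGroup.mk [z]) ↔ D' (p * FreeGroup.mk [ng y])) → l = [] := by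
      intro l r y z h1 h2 h3
      have h4 := (turn hw hW hD hfin hC hp h1 h2 (hOut _) (hOut _)).1 h3
      rw [hp1, one_mul] at h4
      exact short_mem hw h1 h4
    have huniq2 : ∀ y z, Fact (h :: s) [y, z] →
        ¬ (D' (p * FreeGroup.mk [z]) ↔ D' (p * FreeGroup.mk [ng y])) → z = h ∧ y = y0 := by
      intro y z hf hne
      obtain ⟨l, r, h1, h2⟩ := pair_split hf
      have h3 := huniq l r y z h1 h2 hne
      subst h3
      rw [List.nil_append] at h1
      rw [List.append_nil, ← h1, hy0] at h2
      simp only [List.cons.injEq] at h1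
      simp only [Option.some.injEq] at h2
      exact ⟨h1.1.symm, h2.symm⟩
    obtain ⟨b, d, hb, hd, hbd⟩ : ∃ b d, D' (p * FreeGroup.mk [b]) ∧ ¬ D' (p * FreeGroup.mk [d]) ∧
        ((b = h ∧ d = ng y0) ∨ (b = ng y0 ∧ d = h)) := by
      by_cases h1 : D' (p * FreeGroup.mk [h])
      · by_cases h2 : D' (p * FreeGroup.mk [ng y0])
        · exact absurd ⟨fun _ => h2, fun _ => h1⟩ hdist
        · exact ⟨h, ng y0, h1, h2, Or.inl ⟨rfl, rfl⟩⟩
      · by_cases h2 : D' (p * FreeGroup.mk [ng y0])
        · exact ⟨ng y0, h, h2, h1, Or.inr ⟨rfl, rfl⟩⟩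
        · exact absurd ⟨fun h => absurd h h1, fun h => absurd h h2⟩ hdist
    by_cases hB1 : ∃ b', b' ≠ b ∧ D' (p * FreeGroup.mk [b'])
    · obtain ⟨b', hb'1, hb'2⟩ := hB1
      refine choose_side b
        ((Finset.univ.filter (fun c => D' (p * FreeGroup.mk [c]))).erase b)
        (Finset.univ.filter (fun c => ¬ D' (p * FreeGroup.mk [c])))
        (by simp) (by simp [hb]) ⟨b', by simp [hb'1, hb'2]⟩ ⟨d, by simp [hd]⟩ ?_ ?_ ?_
      · intro c
        by_cases h1 : c = b
        · left; exact h1
        · right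
          by_cases h2 : D' (p * FreeGroup.mk [c])
          · left; simp [h1, h2]
          · right; simp [h2]
      · intro c hc
        simp only [Finset.mem_erase, Finset.mem_filter, Finset.mem_univ, true_and] at hc
        simp [hc.2]
      · intro y z hf
        simp only [Finset.mem_erase, Finset.mem_filter, Finset.mem_univ, true_and]
        constructor
        · rintro ⟨⟨h1, h2⟩, h3⟩
          obtain ⟨rfl, rfl⟩ := huniq2 y z hf (fun h => h3 (h.2 h2))
          rcases hbd with ⟨h4, h5⟩ | ⟨h4, h5⟩
          · subst h4; exact h3 hb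
          · exact h1 h4.symm
        · rintro ⟨h3, h1, h2⟩
          obtain ⟨rfl, rfl⟩ := huniq2 y z hf (fun h => h3 (h.1 h2))
          rcases hbd with ⟨h4, h5⟩ | ⟨h4, h5⟩
          · exact h1 h4.symm
          · subst h4; exact h3 hb
    · by_cases hB2 : ∃ d', d' ≠ d ∧ ¬ D' (p * FreeGroup.mk [d'])
      · obtain ⟨d', hd'1, hd'2⟩ := hB2
        refine choose_side d
          (Finset.univ.filter (fun c => D' (p * FreeGroup.mk [c])))
          ((Finset.univ.filter (fun c => ¬ D' (p * FreeGroup.mk [c]))).erase d)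
          (by simp [hd]) (by simp) ⟨b, by simp [hb]⟩ ⟨d', by simp [hd'1, hd'2]⟩ ?_ ?_ ?_
        · intro c
          by_cases h1 : c = d
          · left; exact h1
          · right
            by_cases h2 : D' (p * FreeGroup.mk [c])
            · left; simp [h2]
            · right; simp [h1, h2]
        · intro c hc
          simp only [Finset.mem_filter, Finset.mem_univ, true_and] at hc
          simp [hc]
        · intro y z hf
          simp only [Finset.mem_erase, Finset.mem_filter, Finset.mem_univ, true_and]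
          constructor
          · rintro ⟨h2, h1, h3⟩
            obtain ⟨rfl, rfl⟩ := huniq2 y z hf (fun h => h3 (h.2 h2))
            rcases hbd with ⟨h4, h5⟩ | ⟨h4, h5⟩
            · subst h4; exact h3 hb
            · exact h1 h5.symm
          · rintro ⟨⟨h1, h3⟩, h2⟩
            obtain ⟨rfl, rfl⟩ := huniq2 y z hf (fun h => h3 (h.1 h2))
            rcases hbd with ⟨h4, h5⟩ | ⟨h4, h5⟩
            · exact h1 h5.symm
            · subst h4; exact h3 hb
      · exfalso
        push Not at hB1 hB2
        cases s with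
        | nil => exact hs rfl
        | cons z1 s =>
          have h1 : (z1 :: (s ++ [h])).getLast? = some h := by
            rw [← List.cons_append, List.getLast?_concat]
          have h2 : (D' (p * FreeGroup.mk [z1]) ↔ D' (p * FreeGroup.mk [ng h])) := by
            by_contra hne
            have := huniq [h] s h z1 rfl h1 hne
            simp at this
          have h3 : z1 ≠ ng h := by
            have := isReduced_iff.1 hw.isReduced
            rw [List.isChain_cons_cons] at this
            exact this.1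
          by_cases h4 : D' (p * FreeGroup.mk [z1])
          · have h5 := h2.1 h4
            apply h3
            by_contra h6
            by_cases h7 : z1 = b
            · exact hB1 (ng h) (fun h8 => h6 (h7.trans h8.symm)) h5
            · exact hB1 z1 h7 h4
          · have h5 : ¬ D' (p * FreeGroup.mk [ng h]) := fun h => h4 (h2.2 h)
            apply h3
            by_contra h6
            by_cases h7 : z1 = d
            · exact h5 (hB2 (ng h) (fun h8 => h6 (h7.trans h8.symm)))
            · exact h4 (hB2 z1 h7)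
  · -- the vertex is not the base point
    obtain ⟨e, he⟩ : ∃ e, p.toWord.getLast? = some e := by
      have : p.toWord ≠ [] := fun h => hp1 (FreeGroup.toWord_eq_nil_iff.1 h)
      rw [List.getLast?_eq_some_getLast this]
      exact ⟨_, rfl⟩
    have hOut : ∀ c, Out p c ↔ c ≠ ng e := by
      intro c
      unfold Out
      rw [he]
      constructor
      · intro h1 h2
        apply h1
        rw [h2, ng_ng]
      · intro h1 h2
        apply h1
        simp only [Option.some.injEq] at h2
        rw [h2, ng_ng]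
    refine choose_side (ng e)
      (Finset.univ.filter (fun c => Out p c ∧ D' (p * FreeGroup.mk [c])))
      (Finset.univ.filter (fun c => Out p c ∧ ¬ D' (p * FreeGroup.mk [c])))
      (by simp [hOut]) (by simp [hOut]) ⟨c, by simp [hO, hD1]⟩ ⟨c', by simp [hO', hD2]⟩ ?_ ?_ ?_
    · intro c
      by_cases h1 : c = ng e
      · left; exact h1
      · right
        by_cases h2 : D' (p * FreeGroup.mk [c])
        · left; simp [hOut, h1, h2]
        · right; simp [hOut, h1, h2]
    · intro c hc
      simp only [Finset.mem_filter, Finset.mem_univ, true_and] at hc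
      simp [hc.2]
    · intro y z hf
      simp only [Finset.mem_filter, Finset.mem_univ, true_and]
      obtain ⟨l, r, h1, h2⟩ := pair_split hf
      constructor
      · rintro ⟨⟨h3, h4⟩, h5, h6⟩
        have h7 := (turn hw hW hD hfin hC hp h1 h2 h5 h3).1 (fun h => h6 (h.2 h4))
        rcases axis_not_out hw hp1 h1 h2 h7 with h8 | h8
        · exact h8 h5
        · exact h8 h3
      · rintro ⟨⟨h3, h4⟩, h5, h6⟩
        have h7 := (turn hw hW hD hfin hC hp h1 h2 h5 h3).1 (fun h => h4 (h.1 h6))
        rcases axis_not_out hw hp1 h1 h2 h7 with h8 | h8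
        · exact h8 h5
        · exact h8 h3

end Pool.Agent.Lib_4426b5
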