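import Pool.Agent.Lib_4426b5.Cut

set_option autoImplicit false
set_option linter.unusedSectionVars false
set_option linter.unusedVariables false

namespace Pool.Agent.Lib_4426b5

variable {α : Type} [DecidableEq α]

theorem pair_split {h : α × Bool} {s : List (α × Bool)} {y z : α × Bool}
    (hf : Fact (h :: s) [y, z]) :
    ∃ l r, h :: s = l ++ z :: r ∧ (z :: (r ++ l)).getLast? = some y := by
  refine fact_pair_chain
    (R := fun y z => ∃ l r, h :: s = l ++ z :: r ∧ (z :: (r ++ l)).getLast? = some y) ?_ hf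
  apply chain_of_infix
  rintro y z ⟨s1, t1, he⟩
  rcases List.eq_nil_or_concat t1 with ht | ⟨t, k, ht⟩
  · subst ht
    have h1 : (s1 ++ [y]) ++ [z] = (h :: s) ++ [h] := by
      rw [← he]; simp
    obtain ⟨h2, h3⟩ := List.append_inj' h1 rfl
    simp only [List.cons.injEq, and_true] at h3
    subst h3
    refine ⟨[], s, rfl, ?_⟩
    rw [List.append_nil, ← h2, List.getLast?_concat]
  · rw [List.concat_eq_append] at ht
    subst ht
    have h1 : (s1 ++ [y, z] ++ t) ++ [k] = (h :: s) ++ [h] := by
      rw [← he]; simp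
    obtain ⟨h2, h3⟩ := List.append_inj' h1 rfl
    refine ⟨s1 ++ [y], t, ?_, ?_⟩
    · rw [← h2]; simp
    · have : z :: (t ++ (s1 ++ [y])) = (z :: (t ++ s1)) ++ [y] := by simp
      rw [this, List.getLast?_concat]

theorem invRev_concat (L : List (α × Bool)) (y : α × Bool) :
    FreeGroup.invRev (L ++ [y]) = ng y :: FreeGroup.invRev L := by
  unfold FreeGroup.invRev ng
  simp

theorem invRev_cons (L : List (α × Bool)) (y : α × Bool) :
    FreeGroup.invRev (y :: L) = FreeGroup.invRev L ++ [ng y] := by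
  unfold FreeGroup.invRev ng
  simp

theorem head_invRev {L : List (α × Bool)} {y : α × Bool} (h : L.getLast? = some y) :
    ∃ t, FreeGroup.invRev L = ng y :: t := by
  rcases List.eq_nil_or_concat L with hL | ⟨t, k, hL⟩
  · subst hL; simp at h
  · rw [List.concat_eq_append] at hL
    subst hL
    rw [List.getLast?_concat] at h
    simp only [Option.some.injEq] at h
    subst h
    exact ⟨_, invRev_concat t k⟩

theorem pw_chain {w : List (α × Bool)} (hw : FreeGroup.IsCyclicallyReduced w) (n : ℕ) :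
    (pw w n).IsChain (fun y z => z ≠ ng y) :=
  isReduced_iff.1 (hw.flatten_replicate n).isReduced

theorem pw_last {w : List (α × Bool)} {y : α × Bool} (h : w.getLast? = some y) (n : ℕ) :
    (pw w (n + 1)).getLast? = some y := by
  rw [pw_succ']
  rcases List.eq_nil_or_concat w with hL | ⟨t, k, hL⟩
  · subst hL; simp at h
  · rw [List.concat_eq_append] at hL
    subst hL
    rw [List.getLast?_concat] at h
    rw [← List.append_assoc, List.getLast?_concat]
    exact h

theorem turn {w : List (α × Bool)} (hw : FreeGroup.IsCyclicallyReduced w)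
    {D D' : FreeGroup α → Prop}
    (hW : ∀ g, (D (g * FreeGroup.mk w) ↔ D g) ↔ g ≠ 1)
    (hD : ∀ u, {g | ¬ (D (g * u) ↔ D g)}.Finite)
    (hD' : {g | ¬ (D' g ↔ D g)}.Finite) {M : ℕ} (hC : Cone D' (M + 1)) {p : FreeGroup α}
    (hp : p.norm = M) {l r : List (α × Bool)} {y z : α × Bool} (hlr : w = l ++ z :: r)
    (hy : (z :: (r ++ l)).getLast? = some y) (hz : Out p z) (hy' : Out p (ng y)) :
    (¬ (D' (p * FreeGroup.mk [z]) ↔ D' (p * FreeGroup.mk [ng y])) →
      p * (FreeGroup.mk l)⁻¹ ∈ Subgroup.zpowers (FreeGroup.mk w)) ∧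
    (p * (FreeGroup.mk l)⁻¹ = 1 →
      ¬ (D' (p * FreeGroup.mk [z]) ↔ D' (p * FreeGroup.mk [ng y]))) := by
  have hcyc : FreeGroup.IsCyclicallyReduced (z :: (r ++ l)) := by
    rw [hlr] at hw
    exact cyc_rot hw
  have hconj : (FreeGroup.mk l)⁻¹ * FreeGroup.mk w * FreeGroup.mk l
      = FreeGroup.mk (z :: (r ++ l)) := by
    rw [hlr, ← List.cons_append, ← FreeGroup.mul_mk, ← FreeGroup.mul_mk]
    group
  have hpow : ∀ n : ℕ, (FreeGroup.mk l)⁻¹ * FreeGroup.mk w ^ n * FreeGroup.mk l
      = FreeGroup.mk (pw (z :: (r ++ l)) n) := by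
    intro n
    rw [mk_pw, ← hconj]
    have := conj_pow (i := n) (a := (FreeGroup.mk l)⁻¹) (b := FreeGroup.mk w)
    rw [inv_inv] at this
    exact this.symm
  have hX : ∀ n : ℕ, 1 ≤ n → (D' (p * FreeGroup.mk (pw (z :: (r ++ l)) n)) ↔
      D' (p * FreeGroup.mk [z])) := by
    intro n hn
    obtain ⟨m, rfl⟩ : ∃ m, n = m + 1 := ⟨n - 1, by omega⟩
    have h1 := pw_chain hcyc (m + 1)
    rw [pw_succ, List.cons_append] at h1 ⊢
    apply cone_word' hC z _ p hp
    rw [chain_append_iff]
    refine ⟨h1, ?_⟩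
    intro c hc
    simp only [List.head?_cons, Option.some.injEq] at hc
    rw [← hc]; exact hz
  have hY : ∀ n : ℕ, 1 ≤ n → (D' (p * (FreeGroup.mk (pw (z :: (r ++ l)) n))⁻¹) ↔
      D' (p * FreeGroup.mk [ng y])) := by
    intro n hn
    obtain ⟨m, rfl⟩ : ∃ m, n = m + 1 := ⟨n - 1, by omega⟩
    obtain ⟨t, ht⟩ := head_invRev (pw_last hy m)
    have h1 : (FreeGroup.mk (pw (z :: (r ++ l)) (m + 1)))⁻¹ = FreeGroup.mk (ng y :: t) := by
      rw [FreeGroup.inv_mk, ht]
    have h2 : (ng y :: t).IsChain (fun y z => z ≠ ng y) := by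
      have h3 := toWord_chain (FreeGroup.mk (pw (z :: (r ++ l)) (m + 1)))⁻¹
      rwa [FreeGroup.toWord_inv, toWord_mk_red (pw_chain hcyc _), ht] at h3
    rw [h1]
    apply cone_word' hC (ng y) t p hp
    rw [chain_append_iff]
    refine ⟨h2, ?_⟩
    intro c hc
    simp only [List.head?_cons, Option.some.injEq] at hc
    rw [← hc]; exact hy'
  have hX' : ∀ n : ℕ, 1 ≤ n →
      (D' (p * (FreeGroup.mk l)⁻¹ * FreeGroup.mk w ^ n * FreeGroup.mk l) ↔
      D' (p * FreeGroup.mk [z])) := by
    intro n hn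
    rw [← hX n hn, ← hpow n]
    simp only [mul_assoc]
  have hY' : ∀ n : ℕ, 1 ≤ n →
      (D' (p * (FreeGroup.mk l)⁻¹ * (FreeGroup.mk w)⁻¹ ^ n * FreeGroup.mk l) ↔
      D' (p * FreeGroup.mk [ng y])) := by
    intro n hn
    have e : p * (FreeGroup.mk l)⁻¹ * (FreeGroup.mk w)⁻¹ ^ n * FreeGroup.mk l
        = p * (FreeGroup.mk (pw (z :: (r ++ l)) n))⁻¹ := by
      rw [← hpow n, inv_pow]
      group
    rw [← hY n hn, e]
  constructor
  · intro hne
    exact lim_mem hW hD hD' _ (FreeGroup.mk l) _ _ hX' hY' hne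
  · intro h1
    apply lim_one hW hD hD' (FreeGroup.mk l)
    · intro n hn
      have := hX' n hn
      rwa [h1, one_mul] at this
    · intro n hn
      have := hY' n hn
      rwa [h1, one_mul] at this

theorem axis_not_out {w : List (α × Bool)} (hw : FreeGroup.IsCyclicallyReduced w)
    {p : FreeGroup α} (hp : p ≠ 1) {l r : List (α × Bool)} {y z : α × Bool}
    (hlr : w = l ++ z :: r) (hy : (z :: (r ++ l)).getLast? = some y)
    (hmem : p * (FreeGroup.mk l)⁻¹ ∈ Subgroup.zpowers (FreeGroup.mk w)) :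
    ¬ Out p z ∨ ¬ Out p (ng y) := by
  obtain ⟨k, hk⟩ := hmem
  have hk' : p = FreeGroup.mk w ^ k * FreeGroup.mk l := by
    have : FreeGroup.mk w ^ k = p * (FreeGroup.mk l)⁻¹ := hk
    rw [this]; group
  obtain ⟨n, rfl | rfl⟩ := k.eq_nat_or_neg
  · right
    rw [zpow_natCast, ← mk_pw, FreeGroup.mul_mk] at hk'
    have hc : (pw w n ++ l).IsChain (fun y z => z ≠ ng y) := by
      apply chain_fac (pw_chain hw (n + 1))
      rw [pw_succ']
      have e3 : ∀ v, v ++ w = v ++ l ++ (z :: r) := by
        intro v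
        rw [hlr, List.append_assoc]
      refine ⟨[], z :: r, ?_⟩
      rw [e3, List.nil_append]
    have hW : p.toWord = pw w n ++ l := by rw [hk', toWord_mk_red hc]
    unfold Out
    push Not
    rw [hW, ng_ng]
    by_cases hl : l = []
    · subst hl
      rw [List.append_nil] at hy ⊢
      rw [List.nil_append] at hlr
      cases n with
      | zero =>
        exfalso
        apply hp
        rw [hk']
        simp [FreeGroup.one_eq_mk]
      | succ n =>
        rw [← hlr] at hy
        exact pw_last hy n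
    · rw [List.getLast?_append_of_ne_nil _ hl]
      rw [← List.cons_append, List.getLast?_append_of_ne_nil _ hl] at hy
      exact hy
  · cases n with
    | zero =>
      right
      have hk2 : p = FreeGroup.mk l := by simpa using hk'
      have hc : l.IsChain (fun y z => z ≠ ng y) := by
        have h1 := isReduced_iff.1 hw.isReduced
        rw [hlr] at h1
        exact (List.isChain_append.1 h1).1
      have hl : l ≠ [] := by
        rintro rfl
        apply hp
        rw [hk2, FreeGroup.one_eq_mk]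
      unfold Out
      push Not
      rw [ng_ng, hk2, toWord_mk_red hc]
      rw [← List.cons_append, List.getLast?_append_of_ne_nil _ hl] at hy
      exact hy
    | succ n =>
      left
      have hinv : p⁻¹ = FreeGroup.mk ((z :: r) ++ pw w n) := by
        have e2 : (FreeGroup.mk l)⁻¹ * FreeGroup.mk w = FreeGroup.mk (z :: r) := by
          rw [hlr, ← FreeGroup.mul_mk]
          group
        rw [hk', ← FreeGroup.mul_mk, mk_pw, zpow_neg, zpow_natCast, pow_succ', ← e2,
          mul_inv_rev, inv_inv, mul_assoc]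
      have hc : ((z :: r) ++ pw w n).IsChain (fun y z => z ≠ ng y) := by
        apply chain_fac (pw_chain hw (n + 1))
        rw [pw_succ]
        have e3 : ∀ v, w ++ v = l ++ ((z :: r) ++ v) := by
          intro v
          rw [hlr, List.append_assoc]
        refine ⟨l, [], ?_⟩
        rw [e3, List.append_nil]
      have hW : p.toWord = FreeGroup.invRev ((z :: r) ++ pw w n) := by
        rw [← inv_inv p, FreeGroup.toWord_inv, hinv, toWord_mk_red hc]
      unfold Out
      push Not
      rw [hW, List.cons_append, invRev_cons, List.getLast?_concat]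

end Pool.Agent.Lib_4426b5
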