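import Pool.Agent.Lib_4426b5.Strict

set_option autoImplicit false
set_option linter.unusedSectionVars false
set_option linter.unusedVariables false

namespace Pool.Agent.Lib_4426b5

section
variable {α : Type} [DecidableEq α]

theorem succ_letter {w : List (α × Bool)} {c : α × Bool} (hc : c ∈ w) : ∃ z, Fact w [c, z] := by
  obtain ⟨l, r, rfl⟩ := List.append_of_mem hc
  obtain ⟨z, t, hzt⟩ : ∃ z t, r ++ (l ++ c :: r) = z :: t := by
    cases h : r ++ (l ++ c :: r) with
    | nil => simp at h
    | cons z t => exact ⟨z, t, rfl⟩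
  refine ⟨z, 2, l, t, ?_⟩
  rw [pw_succ, pw_one]
  have : l ++ c :: r ++ (l ++ c :: r) = l ++ c :: (r ++ (l ++ c :: r)) := by simp
  rw [this, hzt]
  simp

theorem pred_letter {w : List (α × Bool)} {c : α × Bool} (hc : c ∈ w) : ∃ y, Fact w [y, c] := by
  obtain ⟨l, r, rfl⟩ := List.append_of_mem hc
  rcases List.eq_nil_or_concat (l ++ c :: r ++ l) with h | ⟨t, y, h⟩
  · simp at h
  · rw [List.concat_eq_append] at h
    refine ⟨y, 2, t, r, ?_⟩
    rw [pw_succ, pw_one]
    have : l ++ c :: r ++ (l ++ c :: r) = (l ++ c :: r ++ l) ++ c :: r := by simp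
    rw [this, h]
    simp

theorem chain_mem_iff {A : Finset (α × Bool)} {h : α × Bool} {s : List (α × Bool)}
    (hc : (h :: s).IsChain (fun y z => y ∈ A ↔ z ∈ A)) : ∀ x ∈ h :: s, (x ∈ A ↔ h ∈ A) := by
  induction s generalizing h with
  | nil =>
    intro x hx
    rw [List.mem_singleton] at hx
    rw [hx]
  | cons k s ih =>
    rw [List.isChain_cons_cons] at hc
    intro x hx
    rw [List.mem_cons] at hx
    rcases hx with rfl | hx
    · exact Iff.rfl
    · rw [ih hc.2 x hx, hc.1]

theorem strict_cut [Fintype α] {h : α × Bool} {s : List (α × Bool)}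
    (hw : FreeGroup.IsCyclicallyReduced (h :: s)) (hs : s ≠ []) {D : FreeGroup α → Prop}
    (hW : ∀ g, (D (g * FreeGroup.mk (h :: s)) ↔ D g) ↔ g ≠ 1)
    (hD : ∀ u, {g | ¬ (D (g * u) ↔ D g)}.Finite)
    (hall : ∀ c : α × Bool, c ∈ h :: s ∨ ng c ∈ h :: s) :
    ∃ (a : α × Bool) (A : Finset (α × Bool)), Ok a A ∧
      (∀ y z, Fact (h :: s) [y, z] → ¬ Cross a A y z) ∧
      ∃ y z, Fact (h :: s) [y, z] ∧ Join a A y z := by
  obtain ⟨a, A, hOk, ⟨c0, hc0⟩, hcross⟩ := weak_cut hw hs hW hD
  by_cases hJ : ∃ y z, Fact (h :: s) [y, z] ∧ Join a A y z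
  · exact ⟨a, A, hOk, hcross, hJ⟩
  · have hiff : ∀ y z, Fact (h :: s) [y, z] → (ng y ∈ A ↔ z ∈ A) := by
      intro y z hf
      constructor
      · intro hy
        by_contra hz
        apply hcross y z hf
        left
        refine ⟨hy, hz, ?_⟩
        intro hza
        exact hJ ⟨y, z, hf, Or.inl ⟨hy, hza⟩⟩
      · intro hz
        by_contra hy
        apply hcross y z hf
        right
        refine ⟨hz, hy, ?_⟩
        intro hya
        exact hJ ⟨y, z, hf, Or.inr ⟨hz, hya⟩⟩
    by_cases hcl : ∀ c ∈ A, ng c ∈ A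
    · exfalso
      have hcl' : ∀ c, ng c ∈ A ↔ c ∈ A := by
        intro c
        constructor
        · intro hc
          have := hcl _ hc
          rwa [ng_ng] at this
        · exact hcl c
      have hchain : (h :: s ++ [h]).IsChain (fun y z => y ∈ A ↔ z ∈ A) := by
        apply chain_of_fact
        intro y z hf
        rw [← hiff y z hf, hcl']
      have hchain2 : (h :: s).IsChain (fun y z => y ∈ A ↔ z ∈ A) :=
        (List.isChain_append.1 hchain).1
      have hmem := chain_mem_iff hchain2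
      have h1 : h ∈ A := by
        rcases hall c0 with h2 | h2
        · exact (hmem c0 h2).1 hc0
        · exact (hmem _ h2).1 (hcl _ hc0)
      rcases hall a with h2 | h2
      · exact hOk.1 ((hmem a h2).2 h1)
      · exact hOk.2 ((hmem _ h2).2 h1)
    · push Not at hcl
      obtain ⟨c, hcA, hnc⟩ := hcl
      refine ⟨c, A.erase c, ⟨by simp, by simp [hnc]⟩, ?_, ?_⟩
      · rintro y z hf (⟨h1, h2, h3⟩ | ⟨h1, h2, h3⟩)
        · rw [Finset.mem_erase] at h1 h2
          exact h2 ⟨h3, (hiff y z hf).1 h1.2⟩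
        · rw [Finset.mem_erase] at h1 h2
          exact h2 ⟨h3, (hiff y z hf).2 h1.2⟩
      · rcases hall c with h1 | h1
        · obtain ⟨y, hf⟩ := pred_letter h1
          refine ⟨y, c, hf, Or.inl ⟨?_, rfl⟩⟩
          rw [Finset.mem_erase]
          exact ⟨fun h2 => cyc_fact hw hf h2.symm, (hiff y c hf).2 hcA⟩
        · obtain ⟨z, hf⟩ := succ_letter h1
          refine ⟨ng c, z, hf, Or.inr ⟨?_, ng_ng c⟩⟩
          rw [Finset.mem_erase]
          refine ⟨?_, (hiff _ z hf).1 (by rw [ng_ng]; exact hcA)⟩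
          have := cyc_fact hw hf
          rwa [ng_ng] at this

end

section
variable {α β : Type} [DecidableEq α] [DecidableEq β] (f : β → α)

/-- the letter map -/
def fl (c : β × Bool) : α × Bool := (f c.1, c.2)

theorem fl_ng (c : β × Bool) : fl f (ng c) = ng (fl f c) := rfl

theorem fl_inj (hf : Function.Injective f) : Function.Injective (fl f) := by
  rintro ⟨i, b⟩ ⟨j, c⟩ h
  unfold fl at h
  simp only [Prod.mk.injEq] at h
  rw [hf h.1, h.2]

theorem pw_map (w : List (β × Bool)) (n : ℕ) : pw (w.map (fl f)) n = (pw w n).map (fl f) := by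
  induction n with
  | zero => rfl
  | succ n ih => rw [pw_succ, pw_succ, ih, List.map_append]

theorem fact_map {w : List (β × Bool)} {y z : α × Bool} (h : Fact (w.map (fl f)) [y, z]) :
    ∃ y' z', y = fl f y' ∧ z = fl f z' ∧ Fact w [y', z'] := by
  obtain ⟨n, hn⟩ := h
  rw [pw_map, List.infix_map_iff] at hn
  obtain ⟨l, hl, he⟩ := hn
  match l, hl, he with
  | [], hl, he => simp at he
  | [_], hl, he => simp at he
  | [y', z'], hl, he =>
    simp only [List.map_cons, List.map_nil, List.cons.injEq, and_true] at he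
    exact ⟨y', z', he.1, he.2, n, hl⟩
  | _ :: _ :: _ :: _, hl, he => simp at he

theorem fact_map' {w : List (β × Bool)} {y z : β × Bool} (h : Fact w [y, z]) :
    Fact (w.map (fl f)) [fl f y, fl f z] := by
  obtain ⟨n, hn⟩ := h
  refine ⟨n, ?_⟩
  rw [pw_map]
  exact hn.map (fl f)

theorem cyc_map (hf : Function.Injective f) {w : List (β × Bool)}
    (h : FreeGroup.IsCyclicallyReduced (w.map (fl f))) : FreeGroup.IsCyclicallyReduced w := by
  cases w with
  | nil => simp
  | cons x s =>
    rw [List.map_cons, cyc_iff] at h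
    rw [cyc_iff]
    have e : fl f x :: List.map (fl f) s ++ [fl f x] = (x :: s ++ [x]).map (fl f) := by simp
    rw [e, List.isChain_map] at h
    refine h.imp ?_
    intro y z hyz h2
    apply hyz
    rw [h2, fl_ng]

end

theorem whitehead_aux {α β : Type} [DecidableEq α] [DecidableEq β] [Fintype β] (f : β → α)
    (hf : Function.Injective f) {w' : List (β × Bool)} (hall : ∀ c, c ∈ w' ∨ ng c ∈ w')
    (hw : Prim (w'.map (fl f))) (h2 : 2 ≤ w'.length) :
    ∃ (a : α × Bool) (A : Finset (α × Bool)), Ok a A ∧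
      (∀ y z, Fact (w'.map (fl f)) [y, z] → ¬ Cross a A y z) ∧
      ∃ y z, Fact (w'.map (fl f)) [y, z] ∧ Join a A y z := by
  have hinj := fl_inj f hf
  obtain ⟨_, hcyc, φ, i, hφ⟩ := hw
  obtain ⟨D, hD, hW⟩ := exists_half φ i
  rw [← hφ] at hW
  have hcyc' := cyc_map f hf hcyc
  have hι : Function.Injective (FreeGroup.map f) := FreeGroup.map_injective hf
  have hmk : FreeGroup.map f (FreeGroup.mk w') = FreeGroup.mk (w'.map (fl f)) := by
    rw [FreeGroup.map.mk]
    rfl
  have hW' : ∀ g, (D (FreeGroup.map f (g * FreeGroup.mk w')) ↔ D (FreeGroup.map f g)) ↔ g ≠ 1 := by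
    intro g
    rw [map_mul, hmk, hW]
    rw [Ne, Ne, ← hι.eq_iff (a := g) (b := 1), map_one]
  have hD' : ∀ u, {g | ¬ (D (FreeGroup.map f (g * u)) ↔ D (FreeGroup.map f g))}.Finite := by
    intro u
    have h1 := (hD (FreeGroup.map f u)).preimage (f := FreeGroup.map f) hι.injOn
    refine h1.subset ?_
    intro g hg
    simp only [Set.mem_preimage, Set.mem_ofPred_eq] at hg ⊢
    rwa [map_mul] at hg
  obtain ⟨h, s, rfl⟩ : ∃ h s, w' = h :: s := by
    cases w' with
    | nil => simp at h2
    | cons h s => exact ⟨h, s, rfl⟩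
  have hs : s ≠ [] := by
    rintro rfl
    simp at h2
  obtain ⟨a, A, hOk, hcross, y, z, hyz, hjoin⟩ :=
    strict_cut hcyc' hs (D := fun g => D (FreeGroup.map f g)) hW' hD' hall
  have hmem : ∀ c, fl f c ∈ A.image (fl f) ↔ c ∈ A := by
    intro c
    rw [Finset.mem_image]
    constructor
    · rintro ⟨d, hd, he⟩
      rwa [← hinj he]
    · intro hc
      exact ⟨c, hc, rfl⟩
  refine ⟨fl f a, A.image (fl f), ⟨?_, ?_⟩, ?_, fl f y, fl f z, fact_map' f hyz, ?_⟩
  · rw [hmem]; exact hOk.1
  · rw [← fl_ng, hmem]; exact hOk.2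
  · intro y' z' hf'
    obtain ⟨y, z, rfl, rfl, hyz'⟩ := fact_map f hf'
    intro hcr
    apply hcross y z hyz'
    unfold Cross at hcr ⊢
    rw [← fl_ng, hmem, hmem, Ne, Ne, hinj.eq_iff, hinj.eq_iff] at hcr
    exact hcr
  · unfold Join at hjoin ⊢
    rw [← fl_ng, hmem, hmem, hinj.eq_iff, hinj.eq_iff]
    exact hjoin

/-- **Whitehead's cut vertex lemma**: a cyclically reduced primitive word of length at least two
admits a strictly length reducing move. -/
theorem whitehead {α : Type} [DecidableEq α] {w : List (α × Bool)} (hw : Prim w)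
    (h2 : 2 ≤ w.length) :
    ∃ (a : α × Bool) (A : Finset (α × Bool)), Ok a A ∧
      (∀ y z, Fact w [y, z] → ¬ Cross a A y z) ∧
      ∃ y z, Fact w [y, z] ∧ Join a A y z := by
  have : Fintype {i : α // i ∈ (w.map Prod.fst).toFinset} := inferInstance
  have hmem : ∀ x ∈ w, x.1 ∈ (w.map Prod.fst).toFinset := by
    intro x hx
    rw [List.mem_toFinset]
    exact List.mem_map_of_mem hx
  have hw' : (w.attach.map (fun x =>
      ((⟨x.1.1, hmem x.1 x.2⟩ : {i : α // i ∈ (w.map Prod.fst).toFinset}), x.1.2))).map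
      (fl Subtype.val) = w := by
    rw [List.map_map]
    conv_rhs => rw [← List.attach_map_subtype_val w]
    apply List.map_congr_left
    intro x _
    rfl
  rw [← hw']
  apply whitehead_aux Subtype.val Subtype.val_injective
  · rintro ⟨⟨i, hi⟩, b⟩
    rw [List.mem_toFinset, List.mem_map] at hi
    obtain ⟨⟨j, b'⟩, hj, rfl⟩ := hi
    have h3 : ((⟨j, hmem _ hj⟩ : {i : α // i ∈ (w.map Prod.fst).toFinset}), b') ∈
        (w.attach.map (fun x =>
      ((⟨x.1.1, hmem x.1 x.2⟩ : {i : α // i ∈ (w.map Prod.fst).toFinset}), x.1.2))) := by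
      rw [List.mem_map]
      exact ⟨⟨(j, b'), hj⟩, List.mem_attach _ _, rfl⟩
    by_cases hb : b = b'
    · left
      subst hb
      exact h3
    · right
      have : b' = !b := by
        revert hb
        cases b <;> cases b' <;> simp
      subst this
      exact h3
  · rw [hw']
    exact hw
  · rw [List.length_map, List.length_attach]
    exact h2

end Pool.Agent.Lib_4426b5
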